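import Pool.Agent.UH.Two

/-!
# Comparison of the heights of two coordinates
-/

set_option autoImplicit false

open NumberField Polynomial IsDedekindDomain

namespace Pool.Agent.UH

section
variable {K : Type*} [Field K] [NumberField K]

/-- The bivariate polynomial, coefficients in `K`. -/
noncomputable def relPolyK (D : ℕ) (g : ℕ → K[X]) : MvPolynomial (Fin 2) K :=
  ∑ j ∈ Finset.range (D + 1), aeval (MvPolynomial.X 0) (g j) * MvPolynomial.X 1 ^ j

omit [NumberField K] in
theorem aeval_relPolyK {A : Type*} [CommRing A] [Algebra K A] (D : ℕ) (g : ℕ → K[X])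
    (u w : A) : MvPolynomial.aeval ![u, w] (relPolyK D g) =
      ∑ j ∈ Finset.range (D + 1), aeval u (g j) * w ^ j := by
  rw [relPolyK, map_sum]
  refine Finset.sum_congr rfl fun j _ => ?_
  rw [map_mul, map_pow, ← Polynomial.aeval_algHom_apply]
  simp

omit [NumberField K] in
/-- Division by the common factor. -/
theorem exists_primitive (D : ℕ) (g : ℕ → K[X]) (hg : g D ≠ 0) :
    ∃ (d : K[X]) (g' u : ℕ → K[X]), d ≠ 0 ∧ (∀ j ≤ D, g j = d * g' j) ∧
      ∑ j ∈ Finset.range (D + 1), u j * g' j = 1 := by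
  classical
  set J : Ideal K[X] := Ideal.span (Set.range fun j : Fin (D + 1) => g j) with hJ
  set d := Submodule.IsPrincipal.generator J with hd
  have hmem : ∀ j : Fin (D + 1), g j ∈ J := fun j => Ideal.subset_span ⟨j, rfl⟩
  have hdvd : ∀ j ≤ D, d ∣ g j := fun j hj =>
    (Submodule.IsPrincipal.mem_iff_generator_dvd J).mp (hmem ⟨j, Nat.lt_succ_of_le hj⟩)
  have hd0 : d ≠ 0 := by
    intro h
    obtain ⟨r, hr⟩ := hdvd D le_rfl
    rw [h, zero_mul] at hr
    exact hg hr
  have h1 : ∀ j, ∃ r, j ≤ D → g j = d * r := by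
    intro j
    by_cases hj : j ≤ D
    · obtain ⟨r, hr⟩ := hdvd j hj
      exact ⟨r, fun _ => hr⟩
    · exact ⟨0, fun h => absurd h hj⟩
  choose g' hg' using h1
  have h2 : d ∈ J := Submodule.IsPrincipal.generator_mem J
  obtain ⟨u, hu⟩ := (Ideal.mem_span_range_iff_exists_fun).mp h2
  refine ⟨d, g', fun j => if h : j < D + 1 then u ⟨j, h⟩ else 0, hd0, hg', ?_⟩
  have h3 : d * ∑ j ∈ Finset.range (D + 1), (if h : j < D + 1 then u ⟨j, h⟩ else 0) * g' j =
      d * 1 := by
    rw [mul_one, Finset.mul_sum, Finset.sum_range]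
    refine Eq.trans ?_ hu
    refine Finset.sum_congr rfl fun j _ => ?_
    rw [dif_pos j.2, hg' j (Nat.lt_succ_iff.mp j.2)]
    ring
  exact mul_left_cancel₀ hd0 h3

/-- **Comparison of heights on a curve.** -/
theorem compare {Ω : Type*} [Field Ω] [CharZero Ω] [Algebra K Ω]
    [Algebra.IsAlgebraic ℚ Ω] {F : Type*} [Field F] [Algebra K F] {ξ η : F}
    (hξ : Transcendental K ξ)
    (hη : IsIntegral (IntermediateField.adjoin K {ξ}) η) :
    ∃ A B : ℝ, 0 ≤ A ∧ 0 ≤ B ∧ ∀ x y : Ω, Spec K ξ η x y →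
      absLogHeight₁ y ≤ A * absLogHeight₁ x + B := by
  classical
  obtain ⟨D, g, hD, hgD, hrel, -⟩ := exists_rel hη
  have hgD0 : (g D).map (algebraMap (𝓞 K) K) ≠ 0 := by
    intro h
    apply hgD
    rw [evK_apply, h, map_zero]
  obtain ⟨d, g', u, hd0, hg', hu⟩ := exists_primitive D
    (fun j => (g j).map (algebraMap (𝓞 K) K)) hgD0
  have hdξ : aeval ξ d ≠ 0 := by
    intro h
    exact hξ ⟨d, hd0, h⟩
  have hrel' : ∑ j ∈ Finset.range (D + 1), aeval ξ (g' j) * η ^ j = 0 := by
    have h1 : aeval ξ d * ∑ j ∈ Finset.range (D + 1), aeval ξ (g' j) * η ^ j = 0 := by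
      rw [← hrel, Finset.mul_sum]
      refine Finset.sum_congr rfl fun j hj => ?_
      rw [evK_apply]
      have := hg' j (Nat.lt_succ_iff.mp (Finset.mem_range.mp hj))
      rw [this, map_mul]; ring
    exact (mul_eq_zero.mp h1).resolve_left hdξ
  -- constants
  choose A B hA hB hAB using fun j : ℕ =>
    abs_eval_le (Ω := Ω) ((g' j).map (algebraMap K Ω))
  set A0 := ∑ j ∈ Finset.range (D + 1), A j with hA0
  set B0 := ∑ j ∈ Finset.range (D + 1), B j with hB0
  have hA00 : 0 ≤ A0 := Finset.sum_nonneg fun j _ => hA j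
  have hB00 : 0 ≤ B0 := Finset.sum_nonneg fun j _ => hB j
  refine ⟨D * (2 * A0), Real.log D + D * (2 * B0), by positivity, by positivity, ?_⟩
  intro x y hxy
  have hx0 := abs_nonneg x
  have hcoef : ∀ j ≤ D, absLogHeight₁ (aeval x (g' j)) ≤ A0 * absLogHeight₁ x + B0 := by
    intro j hj
    have h1 := hAB j x
    rw [eval_map_algebraMap] at h1
    have h2 := Finset.single_le_sum (f := A) (fun j _ => hA j)
      (Finset.mem_range.mpr (Nat.lt_succ_of_le hj))
    have h3 := Finset.single_le_sum (f := B) (fun j _ => hB j)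
      (Finset.mem_range.mpr (Nat.lt_succ_of_le hj))
    have h4 := mul_le_mul_of_nonneg_right h2 hx0
    linarith
  -- the polynomial at `x`
  set p : Polynomial Ω := ∑ j ∈ Finset.range (D + 1), C (aeval x (g' j)) * X ^ j with hp
  have hpc : ∀ j ≤ D, p.coeff j = aeval x (g' j) := by
    intro j hj
    rw [hp, finsetSum_coeff]
    simp only [coeff_C_mul, coeff_X_pow]
    rw [Finset.sum_eq_single j]
    · simp
    · intro b _ hb
      rw [if_neg (fun h => hb h.symm), mul_zero]
    · intro h
      exact absurd (Finset.mem_range.mpr (Nat.lt_succ_of_le hj)) h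
  have hp0 : p ≠ 0 := by
    intro h
    have h1 : ∀ j ≤ D, aeval x (g' j) = 0 := fun j hj => by
      rw [← hpc j hj, h, coeff_zero]
    have h2 := congrArg (aeval x) hu
    rw [map_sum, map_one] at h2
    have h3 : ∑ j ∈ Finset.range (D + 1), aeval x (u j * g' j) = 0 :=
      Finset.sum_eq_zero fun j hj => by
        rw [map_mul, h1 j (Nat.lt_succ_iff.mp (Finset.mem_range.mp hj)), mul_zero]
    rw [h3] at h2
    exact zero_ne_one h2
  have hpD : p.natDegree ≤ D := by
    rw [hp]
    refine natDegree_sum_le_of_forall_le _ _ fun j hj => ?_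
    refine (natDegree_C_mul_X_pow_le _ _).trans ?_
    exact Nat.lt_succ_iff.mp (Finset.mem_range.mp hj)
  have hpy : p.eval y = 0 := by
    have h1 : MvPolynomial.aeval ![x, y] (relPolyK D g') = 0 := by
      apply hxy
      rw [aeval_relPolyK]
      exact hrel'
    rw [aeval_relPolyK] at h1
    rw [hp, eval_finsetSum, ← h1]
    refine Finset.sum_congr rfl fun j _ => ?_
    simp
  set m := p.natDegree with hm
  have hlc : p.coeff m ≠ 0 := leadingCoeff_ne_zero.mpr hp0
  have hmpos : 0 < m := by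
    rcases Nat.eq_zero_or_pos m with h | h
    · exfalso
      have h1 : p = C (p.coeff 0) := eq_C_of_natDegree_eq_zero (by rw [← hm]; exact h)
      rw [h1, eval_C] at hpy
      rw [h] at hlc
      exact hlc hpy
    · exact h
  have hroot : y ^ m + ∑ i ∈ Finset.range m, (p.coeff i / p.coeff m) * y ^ i = 0 := by
    rw [eval_eq_sum_range, ← hm, Finset.sum_range_succ] at hpy
    have h1 : (∑ i ∈ Finset.range m, p.coeff i * y ^ i + p.coeff m * y ^ m) / p.coeff m = 0 := by
      rw [hpy, zero_div]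
    rw [add_div, mul_div_cancel_left₀ _ hlc, Finset.sum_div, add_comm] at h1
    rw [← h1]
    congr 1
    refine Finset.sum_congr rfl fun i _ => ?_
    ring
  have h5 := abs_root_le m hmpos (fun i => p.coeff i / p.coeff m) y hroot
  have hm1 : (1 : ℝ) ≤ m := by exact_mod_cast hmpos
  have hmD : (m : ℝ) ≤ D := by exact_mod_cast hpD
  have h6 : ∑ i ∈ Finset.range m, absLogHeight₁ (p.coeff i / p.coeff m) ≤
      ∑ i ∈ Finset.range m, 2 * (A0 * absLogHeight₁ x + B0) := by
    refine Finset.sum_le_sum fun i hi => ?_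
    have hi' := Finset.mem_range.mp hi
    have h7 := abs_div_le (p.coeff i) (p.coeff m)
    have h8 := hcoef i (by omega)
    have h9 := hcoef m hpD
    rw [← hpc i (by omega)] at h8
    rw [← hpc m hpD] at h9
    linarith
  rw [Finset.sum_const, Finset.card_range, nsmul_eq_mul] at h6
  have h10 : Real.log m ≤ Real.log D := Real.log_le_log (by linarith) hmD
  have h11 : 0 ≤ 2 * (A0 * absLogHeight₁ x + B0) := by positivity
  have h12 : (m : ℝ) * (2 * (A0 * absLogHeight₁ x + B0)) ≤
      D * (2 * (A0 * absLogHeight₁ x + B0)) := mul_le_mul_of_nonneg_right hmD h11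
  calc absLogHeight₁ y ≤ Real.log D + D * (2 * (A0 * absLogHeight₁ x + B0)) := by linarith
    _ = _ := by ring

end

/-- Algebraic dependence from a relation. -/
theorem integral_of_relation {K F : Type*} [Field K] [Field F] [Algebra K F] {ξ η : F}
    (hη : Transcendental K η) (H : MvPolynomial (Fin 2) K) (hH : H ≠ 0)
    (h : MvPolynomial.aeval ![ξ, η] H = 0) :
    IsIntegral (IntermediateField.adjoin K {η}) ξ := by
  set k0 := IntermediateField.adjoin K {η} with hk0
  set η0 : k0 := IntermediateField.AdjoinSimple.gen K η with hη0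
  have htr : Transcendental K η0 := by
    intro hcon
    apply hη
    have := hcon.algebraMap (A := F)
    exact this
  have hψ : Function.Injective (MvPolynomial.aeval (fun _ : Fin 1 => η0) :
      MvPolynomial (Fin 1) K →ₐ[K] k0) :=
    (algebraicIndependent_unique_type_iff (x := fun _ : Fin 1 => η0)).mpr htr
  set ψ := (MvPolynomial.aeval (fun _ : Fin 1 => η0) : MvPolynomial (Fin 1) K →ₐ[K] k0)
  set Q : k0[X] := (MvPolynomial.finSuccEquiv K 1 H).map ψ.toRingHom with hQ
  have hQ0 : Q ≠ 0 := by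
    rw [hQ, Polynomial.map_ne_zero_iff hψ]
    intro h1
    exact hH ((map_eq_zero_iff _ (MvPolynomial.finSuccEquiv K 1).injective).mp h1)
  refine (isAlgebraic_iff_isIntegral).mp ⟨Q, hQ0, ?_⟩
  have key : ((aeval ξ : k0[X] →ₐ[k0] F).restrictScalars K).comp
      ((Polynomial.mapAlgHom ψ).comp (MvPolynomial.finSuccEquiv K 1).toAlgHom) =
      MvPolynomial.aeval ![ξ, η] := by
    apply MvPolynomial.algHom_ext
    intro i
    fin_cases i
    · simp [MvPolynomial.finSuccEquiv_X_zero]
    · have : (MvPolynomial.finSuccEquiv K 1) (MvPolynomial.X 1) =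
        Polynomial.C (MvPolynomial.X 0) := MvPolynomial.finSuccEquiv_X_succ (j := (0 : Fin 1))
      simp [this, ψ, hη0]
  have h2 := congrArg (fun f : MvPolynomial (Fin 2) K →ₐ[K] F => f H) key
  simp only [h] at h2
  exact h2

end Pool.Agent.UH
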