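import Pool.Agent.UH.Loc

/-!
# The degree of a collision
-/

set_option autoImplicit false

open IsDedekindDomain NumberField
open scoped WithZero

namespace Pool.Agent.UH

open Pool.Agent.Arb.DB (od u_ne od_mul od_pos od_nonneg od_lt od_le od_eq od_add_eq od_add_ge
  od_pow)

section
variable {K : Type*} [Field K] [NumberField K]

theorem exists_period {p s : ℕ} (hp : p.Prime) (c : K) (v : HeightOneSpectrum (𝓞 K))
    (hv : v.valuation K (p : K) < 1) (hc : v.valuation K c ≤ 1) :
    ∃ j : ℕ, 0 < j ∧ v.valuation K ((fc (p ^ s) c)^[j] 0) < 1 := by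
  have h00 : v.valuation K (0 : K) ≤ 1 := by rw [map_zero]; exact zero_le
  have h1 : ∀ t : ℕ, ∃ a : 𝓞 K,
      v.valuation K (algebraMap (𝓞 K) K a - (fc (p ^ s) c)^[t] 0) < 1 := by
    intro t
    obtain ⟨a, ha⟩ := v.exists_valuation_sub_lt_of_integer
      (iter_int (v.valuation K) hc h00 t) 1
    exact ⟨a, by simpa using ha⟩
  choose a ha using h1
  have : Finite (𝓞 K ⧸ v.asIdeal) := Ideal.finiteQuotientOfFreeOfNeBot _ v.ne_bot
  obtain ⟨s', t, hst, he⟩ := Finite.exists_ne_map_eq_of_infinite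
    (fun t : ℕ => (Ideal.Quotient.mk v.asIdeal (a t)))
  have key : ∀ s' t : ℕ, s' < t → Ideal.Quotient.mk v.asIdeal (a s') =
      Ideal.Quotient.mk v.asIdeal (a t) →
        v.valuation K ((fc (p ^ s) c)^[t - s'] 0) < 1 := by
    intro s' t hst he
    have h3 : a t - a s' ∈ v.asIdeal := by
      rw [← Ideal.Quotient.eq]; exact he.symm
    have h4 : v.valuation K (algebraMap (𝓞 K) K (a t - a s')) < 1 := by
      rw [v.valuation_lt_one_iff_mem]; exact h3
    have h5 : v.valuation K ((fc (p ^ s) c)^[t] 0 - (fc (p ^ s) c)^[s'] 0) < 1 := by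
      have e : (fc (p ^ s) c)^[t] 0 - (fc (p ^ s) c)^[s'] 0 =
          algebraMap (𝓞 K) K (a t - a s') +
          ((algebraMap (𝓞 K) K (a s') - (fc (p ^ s) c)^[s'] 0) -
            (algebraMap (𝓞 K) K (a t) - (fc (p ^ s) c)^[t] 0)) := by
        rw [map_sub]; ring
      rw [e]
      exact Valuation.map_add_lt _ h4 (Valuation.map_sub_lt _ (ha s') (ha t))
    have h6 : (fc (p ^ s) c)^[t] 0 = (fc (p ^ s) c)^[s'] ((fc (p ^ s) c)^[t - s'] 0) := by
      rw [← Function.iterate_add_apply, Nat.add_sub_cancel' hst.le]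
    rw [h6] at h5
    have h7 := small_of_iter (v.valuation K) hp hv hc
      (iter_int (v.valuation K) hc h00 (t - s')) h00 h5
    simpa using h7
  rcases lt_or_gt_of_ne hst with h | h
  · exact ⟨t - s', by omega, key s' t h he⟩
  · exact ⟨s' - t, by omega, key t s' h he.symm⟩

theorem period_od {p s : ℕ} (hp : p.Prime) (hs : 0 < s) (c : K) (u : Valuation K ℤᵐ⁰)
    (hup : u (p : K) < 1)
    (hc : u c ≤ 1) (h0 : ∀ n, 0 < n → (fc (p ^ s) c)^[n] 0 ≠ 0) (j : ℕ) (hj : 0 < j)
    (hpj : u ((fc (p ^ s) c)^[j] 0) < 1) (n : ℕ) (hn : 0 < n) :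
    od u ((fc (p ^ s) c)^[j * n] 0) = od u ((fc (p ^ s) c)^[j] 0) := by
  have hp0 : (p : K) ≠ 0 := by exact_mod_cast hp.ne_zero
  have h00 : u (0 : K) ≤ 1 := by rw [map_zero]; exact zero_le
  induction n with
  | zero => omega
  | succ n ih =>
    rcases Nat.eq_zero_or_pos n with rfl | hn'
    · simp
    have ih' := ih hn'
    have hne : (fc (p ^ s) c)^[j * n] 0 ≠ 0 := h0 _ (by positivity)
    have hne1 : (fc (p ^ s) c)^[j] 0 ≠ 0 := h0 _ hj
    have hsm : u ((fc (p ^ s) c)^[j * n] 0) < 1 := by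
      rw [od_pos u hne, ih', ← od_pos u hne1]; exact hpj
    have e : (fc (p ^ s) c)^[j * (n + 1)] 0 = (fc (p ^ s) c)^[j] 0 +
        ((fc (p ^ s) c)^[j] ((fc (p ^ s) c)^[j * n] 0) - (fc (p ^ s) c)^[j] 0) := by
      have : (fc (p ^ s) c)^[j * (n + 1)] 0 = (fc (p ^ s) c)^[j] ((fc (p ^ s) c)^[j * n] 0) := by
        rw [← Function.iterate_add_apply, show j * (n + 1) = j + j * n by ring]
      rw [this]; ring
    rw [e]
    refine (od_add_eq u hne1 ?_).2
    by_cases h0' : (fc (p ^ s) c)^[j] ((fc (p ^ s) c)^[j * n] 0) = (fc (p ^ s) c)^[j] 0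
    · left; exact sub_eq_zero.mpr h0'
    · right
      have := od_iter_lt u hp hs hp0 hup hc h00 (x := (fc (p ^ s) c)^[j * n] 0) (y := 0)
        (by rw [sub_zero]; exact hsm) hj h0'
      rw [sub_zero, ih'] at this
      exact this

/-- **Collisions have large degree.** -/
theorem collision {p s : ℕ} (hp : p.Prime) (hs : 0 < s) (c : K)
    (v : HeightOneSpectrum (𝓞 K)) (hv : v.valuation K (p : K) < 1) (hc : v.valuation K c ≤ 1)
    (h0 : ∀ n, 0 < n → (fc (p ^ s) c)^[n] 0 ≠ 0) :
    ∃ C0 : ℕ, 0 < C0 ∧ ∀ (E : Type*) [Field E] [NumberField E] [Algebra K E] (x y : E) (N : ℕ),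
      (fc (p ^ s) (algebraMap K E c))^[N + 1] x = (fc (p ^ s) (algebraMap K E c))^[N + 1] y →
      (fc (p ^ s) (algebraMap K E c))^[N] x ≠ (fc (p ^ s) (algebraMap K E c))^[N] y →
        (p ^ s) ^ N ≤ C0 * Module.finrank K E := by
  have hp0 : (p : K) ≠ 0 := by exact_mod_cast hp.ne_zero
  have hρ : 0 < od (v.valuation K) (p : K) := (od_pos _ hp0).mp hv
  obtain ⟨j, hj, hpj⟩ := exists_period (s := s) hp c v hv hc
  set S0 := od (v.valuation K) ((fc (p ^ s) c)^[j] 0) with hS0
  have hS0p : 0 < S0 := (od_pos _ (h0 _ hj)).mp hpj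
  have hq1 : 1 ≤ p ^ s := Nat.one_le_pow _ _ hp.pos
  refine ⟨(p ^ s) ^ (s + S0.toNat) * (p ^ s) * (od (v.valuation K) (p : K)).toNat, ?_, ?_⟩
  · have : 0 < (od (v.valuation K) (p : K)).toNat := by omega
    have hpp := hp.pos
    positivity
  intro E _ _ _ x y N heq hne
  obtain ⟨w, e, he0, he, hw⟩ := Arb.exists_above v E
  have he0' : (0 : ℤ) < e := by exact_mod_cast he0
  have hfr : (e : ℤ) ≤ Module.finrank K E := by exact_mod_cast he
  have hp0E : (p : E) ≠ 0 := by exact_mod_cast hp.ne_zero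
  have hcE : w.valuation E (algebraMap K E c) ≤ 1 := by
    rw [← hw]; exact pow_le_one₀ zero_le hc
  have hpE : w.valuation E (p : E) < 1 := by
    have := hw (p : K)
    rw [map_natCast (algebraMap K E)] at this
    rw [← this]; exact pow_lt_one₀ zero_le hv (by omega)
  have hodpE : od (w.valuation E) (p : E) = e * od (v.valuation K) (p : K) := by
    refine od_pow (v.valuation K) e (w.valuation E) ?_
    have := hw (p : K)
    rw [map_natCast (algebraMap K E)] at this
    exact this.symm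
  -- it is enough to have the bound with `m ≤ s + S0`
  have hfin : ∀ m : ℕ, (m : ℤ) ≤ s + S0 →
      ((p ^ s : ℕ) : ℤ) ^ N ≤ ((p ^ s : ℕ) : ℤ) ^ m *
        ((p ^ s : ℕ) * od (w.valuation E) (p : E)) →
      (p ^ s) ^ N ≤ (p ^ s) ^ (s + S0.toNat) * (p ^ s) * (od (v.valuation K) (p : K)).toNat *
        Module.finrank K E := by
    intro m hm1 hm2
    have hm3 : m ≤ s + S0.toNat := by omega
    have h7 : (((p ^ s) ^ N : ℕ) : ℤ) ≤ (((p ^ s) ^ (s + S0.toNat) * (p ^ s) *
        (od (v.valuation K) (p : K)).toNat * Module.finrank K E : ℕ) : ℤ) := by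
      rw [Nat.cast_mul ((p ^ s) ^ (s + S0.toNat) * (p ^ s) *
        (od (v.valuation K) (p : K)).toNat), Nat.cast_mul ((p ^ s) ^ (s + S0.toNat) * (p ^ s)),
        Int.toNat_of_nonneg hρ.le, Nat.cast_mul ((p ^ s) ^ (s + S0.toNat)), Nat.cast_pow (p ^ s) N,
        Nat.cast_pow (p ^ s) (s + S0.toNat)]
      have hq1' : (1 : ℤ) ≤ ((p ^ s : ℕ) : ℤ) := by exact_mod_cast hq1
      calc ((p ^ s : ℕ) : ℤ) ^ N ≤ ((p ^ s : ℕ) : ℤ) ^ m *
            ((p ^ s : ℕ) * od (w.valuation E) (p : E)) := hm2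
        _ ≤ ((p ^ s : ℕ) : ℤ) ^ (s + S0.toNat) *
            ((p ^ s : ℕ) * od (w.valuation E) (p : E)) := by
            apply mul_le_mul_of_nonneg_right (pow_le_pow_right₀ hq1' hm3)
            rw [hodpE]; positivity
        _ = ((p ^ s : ℕ) : ℤ) ^ (s + S0.toNat) * (p ^ s : ℕ) *
            od (v.valuation K) (p : K) * e := by rw [hodpE]; ring
        _ ≤ ((p ^ s : ℕ) : ℤ) ^ (s + S0.toNat) * (p ^ s : ℕ) *
            od (v.valuation K) (p : K) * (Module.finrank K E : ℤ) := by
            apply mul_le_mul_of_nonneg_left hfr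
            positivity
    exact_mod_cast h7
  rcases lt_or_ge 1 (w.valuation E y) with hy | hy
  · obtain ⟨m, hm1, hm2⟩ := outside (w.valuation E) hp hs hp0E hpE hcE hy N heq hne
    exact hfin m (by omega) hm2
  have hx : w.valuation E x ≤ 1 := by
    by_contra hcon
    push Not at hcon
    have h1 := iter_gt (w.valuation E) hq1 hcE hcon (N + 1)
    rw [heq] at h1
    exact absurd h1 (not_lt.mpr (iter_int (w.valuation E) hcE hy (N + 1)))
  have hρE : 0 < od (w.valuation E) (p : E) := (od_pos _ hp0E).mp hpE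
  set q := p ^ s with hq
  set cE := algebraMap K E c with hcEdef
  -- the last step
  have hlast : ((fc q cE)^[N] x) ^ q = ((fc q cE)^[N] y) ^ q := by
    rw [Function.iterate_succ_apply', Function.iterate_succ_apply'] at heq
    exact add_right_cancel heq
  by_cases hyN : (fc q cE)^[N] y ≠ 0 ∧ od (w.valuation E) ((fc q cE)^[N] y) ≤ e * S0
  · obtain ⟨hyN0, hyN1⟩ := hyN
    have hxN0 : (fc q cE)^[N] x ≠ 0 := by
      intro h
      rw [h, zero_pow (by omega)] at hlast
      exact pow_ne_zero q hyN0 hlast.symm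
    set ω := (fc q cE)^[N] x / (fc q cE)^[N] y with hω
    have hω1 : ω ^ q = 1 := by
      rw [hω, div_pow, hlast, div_self (pow_ne_zero q hyN0)]
    have hω2 : ω ≠ 1 := by
      intro h
      rw [hω, div_eq_one_iff_eq hyN0] at h
      exact hne h
    have hqE0 : ((q : ℕ) : E) ≠ 0 := by
      rw [hq]; push_cast; exact pow_ne_zero _ hp0E
    obtain ⟨hf0, hf⟩ := root_far (w.valuation E) hq1 hqE0 hω1 hω2
    have hodq : od (w.valuation E) ((q : ℕ) : E) = s * od (w.valuation E) (p : E) := by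
      rw [hq]
      push_cast
      exact od_pow (w.valuation E) s (w.valuation E) (map_pow _ _ _)
    have hdiff : (fc q cE)^[N] x - (fc q cE)^[N] y = (fc q cE)^[N] y * (ω - 1) := by
      rw [hω, mul_sub, mul_div_cancel₀ _ hyN0, mul_one]
    have hodd : od (w.valuation E) ((fc q cE)^[N] x - (fc q cE)^[N] y) ≤
        e * S0 + s * od (w.valuation E) (p : E) := by
      rw [hdiff, od_mul _ hyN0 hf0]
      linarith
    have hltN : w.valuation E ((fc q cE)^[N] x - (fc q cE)^[N] y) < 1 := by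
      apply small_of_fc (w.valuation E) hp hpE (c := cE) (iter_int _ hcE hx N)
        (iter_int _ hcE hy N)
      rw [← hq, ← Function.iterate_succ_apply' (fc q cE), ← Function.iterate_succ_apply' (fc q cE),
        heq, sub_self, map_zero]
      exact zero_lt_one
    have hlt0 : w.valuation E (x - y) < 1 := small_of_iter (w.valuation E) hp hpE hcE hx hy hltN
    obtain ⟨m, hm1, hm2⟩ := orbit_bound (w.valuation E) hp hs hp0E hpE hcE hy hlt0 N hne
    refine hfin m ?_ hm2
    have h1 : (m : ℤ) * od (w.valuation E) (p : E) ≤ e * S0 + s * od (w.valuation E) (p : E) :=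
      hm1.trans hodd
    have h2 : (e : ℤ) * S0 ≤ S0 * od (w.valuation E) (p : E) := by
      rw [hodpE]
      nlinarith [mul_nonneg he0'.le hS0p.le]
    have h3 : (m : ℤ) * od (w.valuation E) (p : E) ≤ (s + S0) * od (w.valuation E) (p : E) := by
      linarith
    exact le_of_mul_le_mul_right h3 hρE
  · -- `y_N` close to zero
    rcases Nat.eq_zero_or_pos N with rfl | hN
    · have h1 : 0 < (od (v.valuation K) (p : K)).toNat := by omega
      have h2 : 0 < Module.finrank K E := by omega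
      have hpp := hp.pos
      have : 0 < q ^ (s + S0.toNat) * q * (od (v.valuation K) (p : K)).toNat *
        Module.finrank K E := by positivity
      rw [pow_zero]; exact this
    have h00 : v.valuation K (0 : K) ≤ 1 := by rw [map_zero]; exact zero_le
    set a : K := (fc q c)^[(j - 1) * N] 0 with ha
    have hNa : (fc q c)^[N] a = (fc q c)^[j * N] 0 := by
      obtain ⟨i, rfl⟩ : ∃ i, j = i + 1 := ⟨j - 1, by omega⟩
      simp only [Nat.add_sub_cancel] at ha
      rw [ha, ← Function.iterate_add_apply, show N + i * N = (i + 1) * N by ring]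
    have hind : ∀ (n : ℕ) (x : K), algebraMap K E ((fc q c)^[n] x) =
        (fc q cE)^[n] (algebraMap K E x) := fun n x => map_iter_fc (algebraMap K E) q c x n
    have haE : w.valuation E (algebraMap K E a) ≤ 1 := by
      rw [← hw]; exact pow_le_one₀ zero_le (iter_int _ hc h00 _)
    have hper := period_od hp hs c (v.valuation K) hv hc h0 j hj hpj N hN
    have hzK : (fc q c)^[j * N] 0 ≠ 0 := h0 _ (by positivity)
    set z := (fc q cE)^[N] (algebraMap K E a) with hz
    have hz1 : z = algebraMap K E ((fc q c)^[j * N] 0) := by rw [hz, ← hind, hNa]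
    have hz0 : z ≠ 0 := by
      rw [hz1]; simp only [ne_eq, map_eq_zero]; exact hzK
    have hodz : od (w.valuation E) z = e * S0 := by
      rw [hz1, od_pow (v.valuation K) e (w.valuation E) (hw _).symm, hper]
    have hdiff : z - (fc q cE)^[N] y ≠ 0 ∧
        od (w.valuation E) (z - (fc q cE)^[N] y) = e * S0 := by
      rw [sub_eq_add_neg, ← hodz]
      apply od_add_eq _ hz0
      by_cases hy0 : (fc q cE)^[N] y = 0
      · left; rw [hy0, neg_zero]
      · right
        have h1 : ¬ od (w.valuation E) ((fc q cE)^[N] y) ≤ e * S0 := fun h => hyN ⟨hy0, h⟩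
        rw [od_eq (w.valuation E) (Valuation.map_neg _ _), hodz]
        push Not at h1
        exact h1
    have hlt : w.valuation E (z - (fc q cE)^[N] y) < 1 := by
      rw [od_pos _ hdiff.1, hdiff.2]; positivity
    have hlt0 : w.valuation E (algebraMap K E a - y) < 1 :=
      small_of_iter (w.valuation E) hp hpE hcE haE hy hlt
    obtain ⟨m, hm1, hm2⟩ := orbit_bound (w.valuation E) hp hs hp0E hpE hcE hy hlt0 N
      (sub_ne_zero.mp hdiff.1)
    refine hfin m ?_ hm2
    have h1 : (m : ℤ) * od (w.valuation E) (p : E) ≤ e * S0 := by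
      rw [← hdiff.2]; exact hm1
    have h2 : (e : ℤ) * S0 ≤ S0 * od (w.valuation E) (p : E) := by
      rw [hodpE]
      nlinarith [mul_nonneg he0'.le hS0p.le]
    have h3 : (m : ℤ) * od (w.valuation E) (p : E) ≤ S0 * od (w.valuation E) (p : E) := by
      linarith
    have h4 := le_of_mul_le_mul_right h3 hρE
    omega

end

end Pool.Agent.UH
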