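import Pool.Agent.UH.Loc

/-!
# Polynomials with purely inseparable reduction: local theory
-/

set_option autoImplicit false

open IsDedekindDomain NumberField Polynomial
open scoped WithZero

namespace Pool.Agent.UH

open Pool.Agent.Arb.DB (od u_ne od_mul od_pos od_nonneg od_lt od_le od_eq od_add_eq od_add_ge
  od_pow)

variable {F : Type*} [Field F] (u : Valuation F ℤᵐ⁰)

/-- `f = a_q X ^ q + (small) + a_0`, with `a_q` a unit and `a_0` integral. -/
structure Good (q : ℕ) (π : F) (f : F[X]) : Prop where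
  top : ∀ i, q < i → f.coeff i = 0
  lead : u (f.coeff q) = 1
  mid : ∀ i, 0 < i → i < q → u (f.coeff i) ≤ u π
  const : u (f.coeff 0) ≤ 1

variable {u}

theorem Good.coeff_le {q : ℕ} {π : F} {f : F[X]} (h : Good u q π f) (hπ : u π < 1) (i : ℕ) :
    u (f.coeff i) ≤ 1 := by
  rcases Nat.eq_zero_or_pos i with rfl | hi
  · exact h.const
  rcases lt_trichotomy i q with h1 | h1 | h1
  · exact (h.mid i hi h1).trans hπ.le
  · rw [h1, h.lead]
  · rw [h.top i h1, map_zero]; exact zero_le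

theorem Good.natDegree {q : ℕ} {π : F} {f : F[X]} (h : Good u q π f) : f.natDegree = q := by
  refine natDegree_eq_of_le_of_coeff_ne_zero ?_ ?_
  · rw [natDegree_le_iff_coeff_eq_zero]
    exact h.top
  · intro h1
    have := h.lead
    rw [h1, map_zero] at this
    exact zero_ne_one this

theorem Good.eval_eq {q : ℕ} {π : F} {f : F[X]} (h : Good u q π f) (x : F) :
    f.eval x = ∑ i ∈ Finset.range (q + 1), f.coeff i * x ^ i := by
  rw [eval_eq_sum_range, h.natDegree]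

theorem Good.scale {q : ℕ} {π : F} {f : F[X]} (h : Good u q π f) {m : F} (hm : 1 ≤ u m) :
    Good u q π (C (m ^ q)⁻¹ * f.comp (C m * X)) := by
  have hm0 : m ≠ 0 := by
    rintro rfl
    rw [map_zero] at hm
    exact absurd hm (not_le.mpr zero_lt_one)
  have hc : ∀ i, (C (m ^ q)⁻¹ * f.comp (C m * X)).coeff i = (m ^ q)⁻¹ * (f.coeff i * m ^ i) :=
    fun i => by rw [coeff_C_mul, comp_C_mul_X_coeff]
  have hle : ∀ i ≤ q, u ((m ^ q)⁻¹ * (f.coeff i * m ^ i)) ≤ u (f.coeff i) := by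
    intro i hi
    rw [map_mul, map_mul, map_inv₀, map_pow, map_pow]
    have h1 : u m ^ i ≤ u m ^ q := pow_le_pow_right₀ hm hi
    have h2 : u m ^ q ≠ 0 := pow_ne_zero _ (u_ne u hm0)
    calc (u m ^ q)⁻¹ * (u (f.coeff i) * u m ^ i) ≤ (u m ^ q)⁻¹ * (u (f.coeff i) * u m ^ q) := by
          gcongr
      _ = u (f.coeff i) := by
          rw [mul_comm (u (f.coeff i)), ← mul_assoc, inv_mul_cancel₀ h2, one_mul]
  refine ⟨fun i hi => ?_, ?_, fun i h1 h2 => ?_, ?_⟩
  · rw [hc, h.top i hi, zero_mul, mul_zero]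
  · rw [hc, mul_comm (f.coeff q), ← mul_assoc, inv_mul_cancel₀ (pow_ne_zero _ hm0), one_mul,
      h.lead]
  · rw [hc]
    exact (hle i h2.le).trans (h.mid i h1 h2)
  · rw [hc]
    exact (hle 0 (Nat.zero_le _)).trans h.const

theorem scale_eval {q : ℕ} {f : F[X]} {m : F} (hm : m ≠ 0) (x : F) :
    f.eval (m * x) = m ^ q * (C (m ^ q)⁻¹ * f.comp (C m * X)).eval x := by
  rw [eval_mul, eval_C, eval_comp, eval_mul, eval_C, eval_X, ← mul_assoc,
    mul_inv_cancel₀ (pow_ne_zero _ hm), one_mul]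

/-- The expansion of a difference. -/
theorem Good.expand {p s : ℕ} (hp : p.Prime) {π : F} (hπ0 : π ≠ 0) (hπ : u π < 1)
    (hpπ : u (p : F) ≤ u π) {f : F[X]} (h : Good u (p ^ s) π f) {z δ : F} (hz : u z ≤ 1)
    (hδ : u δ ≤ 1) : ∃ r : F, u r ≤ 1 ∧
      f.eval (z + δ) - f.eval z = δ * (f.coeff (p ^ s) * δ ^ (p ^ s - 1) + π * r) := by
  obtain ⟨r0, hr0, hr0'⟩ := UH.expand u (s := s) hp hz hδ
  have hzδ : u (z + δ) ≤ 1 := Valuation.map_add_le u hz hδ
  -- the other terms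
  have h1 : ∀ i : ℕ, ∃ t : F, u t ≤ 1 ∧ (z + δ) ^ i - z ^ i = δ * t := by
    intro i
    obtain ⟨t, ht⟩ := sub_dvd_pow_sub_pow (⟨z + δ, hzδ⟩ : u.integer) ⟨z, hz⟩ i
    refine ⟨t, t.2, ?_⟩
    have := congrArg (Subring.subtype u.integer) ht
    simp only [map_sub, map_pow, map_mul, Subring.subtype_apply] at this
    rw [this]; ring
  choose t ht1 ht2 using h1
  have hdiv : ∀ a : F, u a ≤ u π → u (a / π) ≤ 1 := by
    intro a ha
    rw [map_div₀, div_le_one₀ (zero_lt_iff.mpr (u_ne u hπ0))]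
    exact ha
  set q := p ^ s with hq
  have hq1 : 1 ≤ q := Nat.one_le_pow _ _ hp.pos
  refine ⟨f.coeff q * ((p : F) / π) * r0 + ∑ i ∈ Finset.Ico 1 q, f.coeff i / π * t i, ?_, ?_⟩
  · refine Valuation.map_add_le u ?_ (Valuation.map_sum_le u fun i hi => ?_)
    · rw [map_mul, map_mul, h.lead, one_mul]
      exact mul_le_one₀ (hdiv _ hpπ) zero_le hr0
    · rw [map_mul]
      have hi' := Finset.mem_Ico.mp hi
      exact mul_le_one₀ (hdiv _ (h.mid i (by omega) hi'.2)) zero_le (ht1 i)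
  · rw [h.eval_eq, h.eval_eq, ← Finset.sum_sub_distrib, Finset.sum_range_succ,
      Finset.range_eq_Ico, Finset.sum_eq_sum_Ico_succ_bot (by omega : 0 < q)]
    simp only [pow_zero, mul_one, sub_self, zero_add]
    have h3 : ∀ i ∈ Finset.Ico 1 q, f.coeff i * (z + δ) ^ i - f.coeff i * z ^ i =
        δ * (π * (f.coeff i / π * t i)) := by
      intro i _
      rw [← mul_sub, ht2]
      field_simp
    rw [Finset.sum_congr rfl h3, ← mul_sub, hr0', ← Finset.mul_sum, ← Finset.mul_sum]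
    field_simp
    ring

/-- One step, integral case. -/
theorem Good.step {p s : ℕ} (hp : p.Prime) {π : F} (hπ0 : π ≠ 0) (hπ : u π < 1)
    (hpπ : u (p : F) ≤ u π) {f : F[X]} (h : Good u (p ^ s) π f) {z δ : F} (hz : u z ≤ 1)
    (hδ : u δ < 1) (hne : f.eval (z + δ) ≠ f.eval z) :
    (((p ^ s : ℕ) - 1 : ℤ) * od u δ < od u π →
      od u (f.eval (z + δ) - f.eval z) = (p ^ s : ℕ) * od u δ) ∧
    (od u π ≤ ((p ^ s : ℕ) - 1 : ℤ) * od u δ →
      od u δ + od u π ≤ od u (f.eval (z + δ) - f.eval z)) ∧ 0 < od u δ := by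
  obtain ⟨r, hr1, hr2⟩ := h.expand hp hπ0 hπ hpπ hz hδ.le
  have hne' : δ * (f.coeff (p ^ s) * δ ^ (p ^ s - 1) + π * r) ≠ 0 := by
    rw [← hr2]; exact sub_ne_zero.mpr hne
  have hδ0 : δ ≠ 0 := left_ne_zero_of_mul hne'
  have h4 : f.coeff (p ^ s) * δ ^ (p ^ s - 1) + π * r ≠ 0 := right_ne_zero_of_mul hne'
  have hq : 1 ≤ p ^ s := Nat.one_le_pow _ _ hp.pos
  have hcast : (((p ^ s - 1 : ℕ)) : ℤ) = ((p ^ s : ℕ) : ℤ) - 1 := by
    rw [Nat.cast_sub hq]; simp
  have hlc0 : f.coeff (p ^ s) ≠ 0 := by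
    intro h1
    have := h.lead
    rw [h1, map_zero] at this
    exact zero_ne_one this
  have hodp : od u (f.coeff (p ^ s) * δ ^ (p ^ s - 1)) = ((p ^ s : ℕ) - 1 : ℤ) * od u δ := by
    rw [od_pow u (p ^ s - 1) u (x := δ) (y := f.coeff (p ^ s) * δ ^ (p ^ s - 1))
      (by rw [map_mul, h.lead, one_mul, map_pow]), hcast]
  have hne2 : f.coeff (p ^ s) * δ ^ (p ^ s - 1) ≠ 0 := mul_ne_zero hlc0 (pow_ne_zero _ hδ0)
  have hpr : π * r = 0 ∨ od u π ≤ od u (π * r) := by
    by_cases hr0 : r = 0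
    · left; rw [hr0, mul_zero]
    · right
      rw [od_mul u hπ0 hr0]
      have := (od_nonneg u hr0).mp hr1
      linarith
  refine ⟨fun h => ?_, fun h => ?_, (od_pos u hδ0).mp hδ⟩
  · rw [hr2, od_mul u hδ0 h4]
    have h6 := (od_add_eq u hne2 (y := π * r) (by
      rcases hpr with h5 | h5
      · exact Or.inl h5
      · exact Or.inr (by rw [hodp]; exact h.trans_le h5))).2
    rw [h6, hodp]; ring
  · rw [hr2, od_mul u hδ0 h4]
    have h6 := od_add_ge u h4 (m := od u π) (Or.inr (by rw [hodp]; exact h)) hpr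
    linarith

theorem Good.back {p s : ℕ} (hp : p.Prime) {π : F} (hπ0 : π ≠ 0) (hπ : u π < 1)
    (hpπ : u (p : F) ≤ u π) {f : F[X]} (h : Good u (p ^ s) π f) {z δ : F} (hz : u z ≤ 1)
    (hδ : u δ ≤ 1) (hlt : u (f.eval (z + δ) - f.eval z) < 1) : u δ < 1 := by
  obtain ⟨r, hr1, hr2⟩ := h.expand hp hπ0 hπ hpπ hz hδ
  by_contra hcon
  push Not at hcon
  have h1 : u δ = 1 := le_antisymm hδ hcon
  have h2 : u (π * r) < 1 := by
    rw [map_mul]
    calc u π * u r ≤ u π * 1 := by gcongr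
      _ < 1 := by rw [mul_one]; exact hπ
  have h3 : u (f.coeff (p ^ s) * δ ^ (p ^ s - 1)) = 1 := by
    rw [map_mul, h.lead, one_mul, map_pow, h1, one_pow]
  have h4 : u (f.coeff (p ^ s) * δ ^ (p ^ s - 1) + π * r) = 1 := by
    rw [Valuation.map_add_eq_of_lt_left u (by rw [h3]; exact h2), h3]
  rw [hr2, map_mul, h1, h4, one_mul] at hlt
  exact lt_irrefl _ hlt

theorem Good.fwd {p s : ℕ} (hp : p.Prime) {π : F} (hπ0 : π ≠ 0) (hπ : u π < 1)
    (hpπ : u (p : F) ≤ u π) {f : F[X]} (h : Good u (p ^ s) π f) {z δ : F} (hz : u z ≤ 1)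
    (hδ : u δ < 1) : u (f.eval (z + δ) - f.eval z) < 1 := by
  obtain ⟨r, hr1, hr2⟩ := h.expand hp hπ0 hπ hpπ hz hδ.le
  rw [hr2, map_mul]
  have h1 : u (f.coeff (p ^ s) * δ ^ (p ^ s - 1) + π * r) ≤ 1 := by
    refine Valuation.map_add_le u ?_ ?_
    · rw [map_mul, h.lead, one_mul, map_pow]; exact pow_le_one₀ zero_le hδ.le
    · rw [map_mul]; exact mul_le_one₀ hπ.le zero_le hr1
  calc u δ * u (f.coeff (p ^ s) * δ ^ (p ^ s - 1) + π * r) ≤ u δ * 1 := by gcongr
    _ < 1 := by rw [mul_one]; exact hδ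

/-- the derivative at a collision, integral case -/
theorem Good.deriv_le {q : ℕ} {π : F} (hπ : u π < 1) {f : F[X]}
    (h : Good u q π f) {z δ : F} (hz : u z ≤ 1) (hδ : u δ ≤ 1) (hδ0 : δ ≠ 0)
    (heq : f.eval (z + δ) = f.eval z) : u (f.derivative.eval z) ≤ u δ := by
  have h1 : ∀ i : ℕ, ∃ k : F, u k ≤ 1 ∧
      (z + δ) ^ i = z ^ i + i * z ^ (i - 1) * δ + k * δ ^ 2 := by
    intro i
    obtain ⟨k, hk⟩ := powAddExpansion (⟨z, hz⟩ : u.integer) ⟨δ, hδ⟩ i
    refine ⟨k, k.2, ?_⟩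
    have := congrArg (Subring.subtype u.integer) hk
    simpa only [map_add, map_pow, map_mul, map_natCast, Subring.subtype_apply] using this
  choose k hk1 hk2 using h1
  have e2 : f.eval (z + δ) = f.eval z + f.derivative.eval z * δ +
      (∑ i ∈ Finset.range (q + 1), f.coeff i * k i) * δ ^ 2 := by
    have e3 : f.derivative.eval z =
        ∑ i ∈ Finset.range (q + 1), f.coeff i * i * z ^ (i - 1) := by
      rw [derivative_eval, sum_over_range' _ _ (q + 1) (by rw [h.natDegree]; omega)]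
      intro n; simp
    rw [h.eval_eq, h.eval_eq, e3, Finset.sum_mul, Finset.sum_mul, ← Finset.sum_add_distrib,
      ← Finset.sum_add_distrib]
    refine Finset.sum_congr rfl fun i _ => ?_
    rw [hk2]; ring
  set k0 := ∑ i ∈ Finset.range (q + 1), f.coeff i * k i with hk0
  have hk0u : u k0 ≤ 1 := Valuation.map_sum_le u fun i _ => by
    rw [map_mul]
    exact mul_le_one₀ (h.coeff_le hπ i) zero_le (hk1 i)
  rw [heq] at e2
  have h2 : δ * (f.derivative.eval z + k0 * δ) = 0 := by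
    linear_combination -e2
  have h3 : f.derivative.eval z = -(k0 * δ) := by
    have := (mul_eq_zero.mp h2).resolve_left hδ0
    linear_combination this
  rw [h3, Valuation.map_neg, map_mul]
  exact mul_le_of_le_one_left zero_le hk0u

end Pool.Agent.UH
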