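import Pool.Agent.UH.GLoc

/-!
# Normalised differences along two orbits
-/

set_option autoImplicit false

open IsDedekindDomain NumberField Polynomial
open scoped WithZero

namespace Pool.Agent.UH

open Pool.Agent.Arb.DB (od u_ne od_mul od_pos od_nonneg od_lt od_le od_eq od_add_eq od_add_ge
  od_pow)

variable {F : Type*} [Field F] (u : Valuation F ℤᵐ⁰)

open Classical in
/-- an element of valuation `max (1, u y)` -/
noncomputable def mm (y : F) : F := if u y ≤ 1 then 1 else y

/-- The normalised difference. -/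
noncomputable def TT (x y : F) : F := (x - y) / mm u y

theorem mm_of_le {y : F} (h : u y ≤ 1) : mm u y = 1 := if_pos h

theorem mm_of_gt {y : F} (h : 1 < u y) : mm u y = y := if_neg (not_le.mpr h)

theorem mm_ge (y : F) : 1 ≤ u (mm u y) := by
  rcases le_or_gt (u y) 1 with h | h
  · rw [mm_of_le u h, map_one]
  · rw [mm_of_gt u h]; exact h.le

theorem mm_ne (y : F) : mm u y ≠ 0 := by
  intro h
  have := mm_ge u y
  rw [h, map_zero] at this
  exact absurd this (not_le.mpr zero_lt_one)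

theorem le_mm (y : F) : u y ≤ u (mm u y) := by
  rcases le_or_gt (u y) 1 with h | h
  · rw [mm_of_le u h, map_one]; exact h
  · rw [mm_of_gt u h]

theorem div_mm (y : F) : u (y / mm u y) ≤ 1 := by
  rw [map_div₀, div_le_one₀ (zero_lt_iff.mpr (u_ne u (mm_ne u y)))]
  exact le_mm u y

variable {u}

theorem Good.eval_le {q : ℕ} {π : F} (hπ : u π < 1) {f : F[X]} (h : Good u q π f) {x : F}
    (hx : u x ≤ 1) : u (f.eval x) ≤ 1 := by
  rw [h.eval_eq]
  refine Valuation.map_sum_le u fun i _ => ?_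
  rw [map_mul, map_pow]
  exact mul_le_one₀ (h.coeff_le hπ i) zero_le (pow_le_one₀ zero_le hx)

theorem Good.eval_gt {q : ℕ} (hq : 1 ≤ q) {π : F} (hπ : u π < 1) {f : F[X]} (h : Good u q π f)
    {x : F} (hx : 1 < u x) : u (f.eval x) = u x ^ q := by
  rw [h.eval_eq, Finset.sum_range_succ, add_comm]
  have h1 : u (f.coeff q * x ^ q) = u x ^ q := by rw [map_mul, h.lead, one_mul, map_pow]
  rw [Valuation.map_add_eq_of_lt_left u (by
    rw [h1]
    refine Valuation.map_sum_lt u (pow_ne_zero _ (zero_lt_one.trans hx).ne') fun i hi => ?_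
    rw [map_mul, map_pow]
    calc u (f.coeff i) * u x ^ i ≤ 1 * u x ^ i := by
          gcongr; exact h.coeff_le hπ i
      _ = u x ^ i := one_mul _
      _ < u x ^ q := pow_lt_pow_right₀ hx (Finset.mem_range.mp hi)), h1]

theorem Good.mm_eval {q : ℕ} (hq : 1 ≤ q) {π : F} (hπ : u π < 1) {f : F[X]} (h : Good u q π f)
    (x : F) : u (mm u (f.eval x)) = u (mm u x) ^ q := by
  rcases le_or_gt (u x) 1 with hx | hx
  · rw [mm_of_le u hx, mm_of_le u (h.eval_le hπ hx), map_one, one_pow]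
  · have h1 := h.eval_gt hq hπ hx
    rw [mm_of_gt u hx, mm_of_gt u (by rw [h1]; exact one_lt_pow₀ hx (by omega)), h1]

/-- the scaled polynomial -/
noncomputable def fm (u : Valuation F ℤᵐ⁰) (q : ℕ) (f : F[X]) (y : F) : F[X] :=
  C ((mm u y) ^ q)⁻¹ * f.comp (C (mm u y) * X)

theorem Good.TT_eval {q : ℕ} (hq : 1 ≤ q) {π : F} (hπ : u π < 1) {f : F[X]} (h : Good u q π f)
    (x y : F) : f.eval x - f.eval y = (mm u y) ^ q *
      ((fm u q f y).eval (y / mm u y + TT u x y) - (fm u q f y).eval (y / mm u y)) := by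
  have e1 : mm u y * (y / mm u y) = y := mul_div_cancel₀ _ (mm_ne u y)
  have e2 : mm u y * (y / mm u y + TT u x y) = x := by
    unfold TT
    rw [mul_add, e1, mul_div_cancel₀ _ (mm_ne u y)]
    ring
  have e3 := scale_eval (q := q) (f := f) (mm_ne u y) (y / mm u y)
  have e4 := scale_eval (q := q) (f := f) (mm_ne u y) (y / mm u y + TT u x y)
  rw [e1] at e3
  rw [e2] at e4
  rw [e3, e4]
  unfold fm
  ring

theorem Good.u_TT_eval {q : ℕ} (hq : 1 ≤ q) {π : F} (hπ : u π < 1) {f : F[X]}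
    (h : Good u q π f) (x y : F) : u (TT u (f.eval x) (f.eval y)) =
      u ((fm u q f y).eval (y / mm u y + TT u x y) - (fm u q f y).eval (y / mm u y)) := by
  rw [TT, map_div₀, h.TT_eval hq hπ x y, map_mul, map_pow, h.mm_eval hq hπ]
  rw [mul_div_cancel_left₀ _ (pow_ne_zero _ (u_ne u (mm_ne u y)))]

theorem TT_eq_zero {x y : F} : TT u x y = 0 ↔ x = y := by
  unfold TT
  rw [div_eq_zero_iff, sub_eq_zero]
  exact or_iff_left (mm_ne u y)

section
variable {p s : ℕ} {π : F} {f : F[X]}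

theorem Good.T_step (hp : p.Prime) (hπ0 : π ≠ 0) (hπ : u π < 1)
    (hpπ : u (p : F) ≤ u π) (h : Good u (p ^ s) π f) {x y : F}
    (hxy : u (TT u x y) < 1) (hne : f.eval x ≠ f.eval y) :
    (((p ^ s : ℕ) - 1 : ℤ) * od u (TT u x y) < od u π →
      od u (TT u (f.eval x) (f.eval y)) = (p ^ s : ℕ) * od u (TT u x y)) ∧
    (od u π ≤ ((p ^ s : ℕ) - 1 : ℤ) * od u (TT u x y) →
      od u (TT u x y) + od u π ≤ od u (TT u (f.eval x) (f.eval y))) ∧
      0 < od u (TT u x y) := by
  have hq1 : 1 ≤ p ^ s := Nat.one_le_pow _ _ hp.pos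
  have hg : Good u (p ^ s) π (fm u (p ^ s) f y) := h.scale (mm_ge u y)
  have h1 := h.TT_eval hq1 hπ x y
  have hne' : (fm u (p ^ s) f y).eval (y / mm u y + TT u x y) ≠
      (fm u (p ^ s) f y).eval (y / mm u y) := by
    intro h2
    rw [h2, sub_self, mul_zero] at h1
    exact hne (sub_eq_zero.mp h1)
  have h3 := hg.step hp hπ0 hπ hpπ (div_mm u y) hxy hne'
  rw [od_eq u (h.u_TT_eval hq1 hπ x y)]
  exact h3

theorem Good.T_fwd (hp : p.Prime) (hπ0 : π ≠ 0) (hπ : u π < 1)
    (hpπ : u (p : F) ≤ u π) (h : Good u (p ^ s) π f) {x y : F}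
    (hxy : u (TT u x y) < 1) : u (TT u (f.eval x) (f.eval y)) < 1 := by
  have hq1 : 1 ≤ p ^ s := Nat.one_le_pow _ _ hp.pos
  rw [h.u_TT_eval hq1 hπ x y]
  exact Good.fwd hp hπ0 hπ hpπ (h.scale (mm_ge u y)) (div_mm u y) hxy

theorem Good.T_back (hp : p.Prime) (hπ0 : π ≠ 0) (hπ : u π < 1)
    (hpπ : u (p : F) ≤ u π) (h : Good u (p ^ s) π f) {x y : F}
    (hlt : u (TT u (f.eval x) (f.eval y)) < 1) : u (TT u x y) < 1 := by
  have hq1 : 1 ≤ p ^ s := Nat.one_le_pow _ _ hp.pos
  rcases le_or_gt (u (TT u x y)) 1 with h1 | h1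
  · rw [h.u_TT_eval hq1 hπ x y] at hlt
    exact Good.back hp hπ0 hπ hpπ (h.scale (mm_ge u y)) (div_mm u y) h1 hlt
  · exfalso
    have hmpos : 0 < u (mm u y) := zero_lt_one.trans_le (mm_ge u y)
    have h2 : u (mm u y) < u (x - y) := by
      unfold TT at h1
      rw [map_div₀, one_lt_div₀ hmpos] at h1
      exact h1
    have h3 : u x = u (x - y) := by
      have e : x = (x - y) + y := by ring
      conv_lhs => rw [e]
      exact Valuation.map_add_eq_of_lt_left u ((le_mm u y).trans_lt h2)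
    have h4 : 1 < u x := by rw [h3]; exact (mm_ge u y).trans_lt h2
    have h5 := h.eval_gt hq1 hπ h4
    have h6 : u (f.eval y) ≤ u (mm u y) ^ (p ^ s) := by
      rw [← h.mm_eval hq1 hπ y]; exact le_mm u _
    have h7 : u (mm u y) ^ (p ^ s) < u (f.eval x) := by
      rw [h5, h3]
      exact pow_lt_pow_left₀ h2 zero_le (by omega)
    have h8 : u (f.eval x - f.eval y) = u (f.eval x) := by
      rw [sub_eq_add_neg]
      exact Valuation.map_add_eq_of_lt_left u (by rw [Valuation.map_neg]; exact h6.trans_lt h7)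
    unfold TT at hlt
    rw [map_div₀, h8, h.mm_eval hq1 hπ, div_lt_one₀ (pow_pos hmpos _)] at hlt
    exact lt_asymm hlt h7

theorem Good.T_fwd_iter (hp : p.Prime) (hπ0 : π ≠ 0) (hπ : u π < 1)
    (hpπ : u (p : F) ≤ u π) (h : Good u (p ^ s) π f) {x y : F}
    (hxy : u (TT u x y) < 1) (n : ℕ) :
    u (TT u ((fun t => f.eval t)^[n] x) ((fun t => f.eval t)^[n] y)) < 1 := by
  induction n generalizing x y with
  | zero => exact hxy
  | succ n ih =>
    rw [Function.iterate_succ_apply, Function.iterate_succ_apply]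
    exact ih (h.T_fwd hp hπ0 hπ hpπ hxy)

theorem Good.T_back_iter (hp : p.Prime) (hπ0 : π ≠ 0) (hπ : u π < 1)
    (hpπ : u (p : F) ≤ u π) (h : Good u (p ^ s) π f) {x y : F} {n : ℕ}
    (hxy : u (TT u ((fun t => f.eval t)^[n] x) ((fun t => f.eval t)^[n] y)) < 1) :
    u (TT u x y) < 1 := by
  induction n generalizing x y with
  | zero => exact hxy
  | succ n ih =>
    rw [Function.iterate_succ_apply, Function.iterate_succ_apply] at hxy
    exact h.T_back hp hπ0 hπ hpπ (ih hxy)

/-- The growth of normalised differences. -/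
theorem Good.orbit (hp : p.Prime) (hs : 0 < s) (hπ0 : π ≠ 0) (hπ : u π < 1)
    (hpπ : u (p : F) ≤ u π) (h : Good u (p ^ s) π f) {x y : F}
    (hxy : u (TT u x y) < 1) (N : ℕ)
    (hne : (fun t => f.eval t)^[N] x ≠ (fun t => f.eval t)^[N] y) :
    ∃ m : ℕ, (m : ℤ) * od u π ≤
        od u (TT u ((fun t => f.eval t)^[N] x) ((fun t => f.eval t)^[N] y)) ∧
      ((p ^ s : ℕ) : ℤ) ^ N ≤ ((p ^ s : ℕ) : ℤ) ^ m * ((p ^ s : ℕ) * od u π) := by
  set φ : F → F := fun t => f.eval t with hφ
  have hnet : ∀ t ≤ N, φ^[t] x ≠ φ^[t] y := by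
    intro t ht h
    apply hne
    obtain ⟨r, rfl⟩ : ∃ r, N = r + t := ⟨N - t, by omega⟩
    rw [Function.iterate_add_apply, Function.iterate_add_apply, h]
  have hq2 : 2 ≤ p ^ s := by
    calc 2 ≤ p := hp.two_le
      _ = p ^ 1 := (pow_one p).symm
      _ ≤ p ^ s := Nat.pow_le_pow_right hp.pos hs
  have step := fun t (ht : t < N) => h.T_step hp hπ0 hπ hpπ
      (h.T_fwd_iter hp hπ0 hπ hpπ hxy t) (by
        have := hnet (t + 1) (by omega)
        rw [Function.iterate_succ_apply', Function.iterate_succ_apply'] at this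
        exact this)
  refine seq_bound (p ^ s) hq2 (od u π) ((od_pos u hπ0).mp hπ)
    (fun t => od u (TT u (φ^[t] x) (φ^[t] y))) N
    ((od_pos u (by rw [ne_eq, TT_eq_zero]; exact hnet 0 (by omega))).mp hxy) ?_ ?_
  · intro t ht hlt
    have := (step t ht).1 hlt
    simp only [Function.iterate_succ_apply']
    exact this
  · intro t ht hge
    have := (step t ht).2.1 hge
    simp only [Function.iterate_succ_apply']
    exact this

theorem Good.T_lt_iter (hp : p.Prime) (hs : 0 < s) (hπ0 : π ≠ 0) (hπ : u π < 1)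
    (hpπ : u (p : F) ≤ u π) (h : Good u (p ^ s) π f) {x y : F}
    (hxy : u (TT u x y) < 1) {n : ℕ} (hn : 0 < n)
    (hne : (fun t => f.eval t)^[n] x ≠ (fun t => f.eval t)^[n] y) :
    od u (TT u x y) <
      od u (TT u ((fun t => f.eval t)^[n] x) ((fun t => f.eval t)^[n] y)) := by
  have hq2 : (2 : ℤ) ≤ (p ^ s : ℕ) := by
    exact_mod_cast (show 2 ≤ p ^ s by
      calc 2 ≤ p := hp.two_le
        _ = p ^ 1 := (pow_one p).symm
        _ ≤ p ^ s := Nat.pow_le_pow_right hp.pos hs)
  induction n with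
  | zero => omega
  | succ n ih =>
    have hne' : (fun t => f.eval t)^[n] x ≠ (fun t => f.eval t)^[n] y := by
      intro h1; apply hne
      rw [Function.iterate_succ_apply', Function.iterate_succ_apply', h1]
    rw [Function.iterate_succ_apply', Function.iterate_succ_apply'] at hne ⊢
    obtain ⟨s1, s2, s3⟩ := h.T_step hp hπ0 hπ hpπ (h.T_fwd_iter hp hπ0 hπ hpπ hxy n) hne
    have hπpos := (od_pos u hπ0).mp hπ
    have h4 : od u (TT u ((fun t => f.eval t)^[n] x) ((fun t => f.eval t)^[n] y)) <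
        od u (TT u (f.eval ((fun t => f.eval t)^[n] x)) (f.eval ((fun t => f.eval t)^[n] y))) := by
      rcases lt_or_ge ((((p ^ s : ℕ)) - 1 : ℤ) *
        od u (TT u ((fun t => f.eval t)^[n] x) ((fun t => f.eval t)^[n] y))) (od u π) with h | h
      · rw [s1 h]; nlinarith
      · have := s2 h
        linarith
    rcases Nat.eq_zero_or_pos n with rfl | hn'
    · simpa using h4
    · exact (ih hn' hne').trans h4

/-- The derivative at a collision. -/
theorem Good.deriv_collision (hp : p.Prime) (hπ0 : π ≠ 0) (hπ : u π < 1)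
    (hpπ : u (p : F) ≤ u π) (h : Good u (p ^ s) π f) {x y : F}
    (heq : f.eval x = f.eval y) (hne : x ≠ y) :
    u (f.derivative.eval y / mm u y ^ (p ^ s - 1)) ≤ u (TT u x y) := by
  have hq1 : 1 ≤ p ^ s := Nat.one_le_pow _ _ hp.pos
  have hg : Good u (p ^ s) π (fm u (p ^ s) f y) := h.scale (mm_ge u y)
  have h1 := h.TT_eval hq1 hπ x y
  rw [heq, sub_self] at h1
  have h2 := (mul_eq_zero.mp h1.symm).resolve_left (pow_ne_zero _ (mm_ne u y))
  have hlt : u (TT u x y) < 1 := by
    apply h.T_back hp hπ0 hπ hpπ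
    rw [heq, TT_eq_zero.mpr rfl, map_zero]
    exact zero_lt_one
  have h3 := hg.deriv_le hπ (div_mm u y) hlt.le (by rw [ne_eq, TT_eq_zero]; exact hne)
    (sub_eq_zero.mp h2)
  have h4 : (fm u (p ^ s) f y).derivative.eval (y / mm u y) =
      f.derivative.eval y / mm u y ^ (p ^ s - 1) := by
    unfold fm
    rw [derivative_C_mul, derivative_comp, eval_mul, eval_mul, eval_C, eval_comp]
    have e1 : (C (mm u y) * X : F[X]).eval (y / mm u y) = y := by
      rw [eval_mul, eval_C, eval_X, mul_div_cancel₀ _ (mm_ne u y)]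
    have e2 : (derivative (C (mm u y) * X : F[X])).eval (y / mm u y) = mm u y := by
      simp
    rw [e1, e2]
    have e3 : mm u y ^ p ^ s = mm u y ^ (p ^ s - 1) * mm u y := by
      rw [← pow_succ]; congr 1; omega
    have h5 := mm_ne u y
    rw [e3]
    field_simp
  rw [h4] at h3
  exact h3

end

end Pool.Agent.UH
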