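import Mathlib

/-!
# Base change for the height of an algebraic number
-/

set_option autoImplicit false

open NumberField Height
open scoped IntermediateField

namespace Pool.Agent.UH

theorem iSup_two (f : Fin 2 → ℝ) : ⨆ i, f i = max (f 0) (f 1) := by
  apply le_antisymm
  · refine ciSup_le fun i => ?_
    fin_cases i
    · exact le_max_left _ _
    · exact le_max_right _ _
  · exact max_le (le_ciSup (Set.finite_range f).bddAbove 0)
      (le_ciSup (Set.finite_range f).bddAbove 1)

section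
variable {K L : Type*} [Field K] [NumberField K] [Field L] [NumberField L] [Algebra K L]

/-- Product over the infinite places as a product over the embeddings. -/
theorem prod_infinite_eq (g : InfinitePlace K → ℝ) :
    ∏ v : InfinitePlace K, g v ^ v.mult = ∏ σ : K →+* ℂ, g (InfinitePlace.mk σ) := by
  classical
  rw [← Finset.prod_fiberwise_of_maps_to (g := InfinitePlace.mk) (t := Finset.univ)
    (fun _ _ => Finset.mem_univ _)]
  refine Finset.prod_congr rfl fun v _ => ?_
  rw [← InfinitePlace.card_filter_mk_eq v, ← Finset.prod_const]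
  refine Finset.prod_congr rfl fun σ hσ => ?_
  rw [(Finset.mem_filter.mp hσ).2]

theorem prod_embeddings (g : (K →+* ℂ) → ℝ) :
    ∏ σ : L →+* ℂ, g (σ.comp (algebraMap K L)) =
      (∏ τ : K →+* ℂ, g τ) ^ Module.finrank K L := by
  classical
  rw [← Finset.prod_fiberwise_of_maps_to (g := fun σ : L →+* ℂ => σ.comp (algebraMap K L))
    (t := Finset.univ) (fun _ _ => Finset.mem_univ _), ← Finset.prod_pow]
  refine Finset.prod_congr rfl fun τ _ => ?_
  have hfin : FiniteDimensional K L := Module.Finite.of_restrictScalars_finite ℚ K L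
  have hcard : (Finset.univ.filter fun σ : L →+* ℂ => σ.comp (algebraMap K L) = τ).card =
      Module.finrank K L := by
    let := τ.toAlgebra
    rw [← AlgHom.card K L ℂ, ← Fintype.card_subtype]
    have e1 : ∀ σ : {σ : L →+* ℂ // σ.comp (algebraMap K L) = τ}, ∀ r : K,
        σ.1 (algebraMap K L r) = algebraMap K ℂ r := fun σ r =>
      congrArg (fun t : K →+* ℂ => t r) σ.2
    let F : {σ : L →+* ℂ // σ.comp (algebraMap K L) = τ} → (L →ₐ[K] ℂ) := fun σ =>
      ⟨σ.1, e1 σ⟩
    refine Fintype.card_of_bijective (f := F) ⟨fun σ σ' h => ?_, fun f => ?_⟩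
    · apply Subtype.ext
      ext z
      exact congrArg (fun t : L →ₐ[K] ℂ => t z) h
    · refine ⟨⟨f.toRingHom, ?_⟩, rfl⟩
      ext r
      exact f.commutes r
  rw [← hcard, ← Finset.prod_const]
  refine Finset.prod_congr rfl fun σ hσ => ?_
  rw [(Finset.mem_filter.mp hσ).2]

theorem prod_infinite_base (g : ℝ → ℝ → ℝ) (a b : K) :
    ∏ w : InfinitePlace L, g (w (algebraMap K L a)) (w (algebraMap K L b)) ^ w.mult =
      (∏ v : InfinitePlace K, g (v a) (v b) ^ v.mult) ^ Module.finrank K L := by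
  rw [prod_infinite_eq (fun w : InfinitePlace L => g (w (algebraMap K L a))
    (w (algebraMap K L b))), prod_infinite_eq (fun v : InfinitePlace K => g (v a) (v b)),
    ← prod_embeddings (K := K) (L := L) (fun τ => g ((InfinitePlace.mk τ) a)
      ((InfinitePlace.mk τ) b))]
  rfl

theorem mulHeight₁_base (x : K) :
    mulHeight₁ (algebraMap K L x) = mulHeight₁ x ^ Module.finrank K L := by
  obtain ⟨a, b, hb, rfl⟩ := IsFractionRing.div_surjective (A := 𝓞 K) x
  have hb0 : (b : K) ≠ 0 := by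
    have := nonZeroDivisors.ne_zero hb
    simpa using this
  have hb0L : algebraMap K L (b : K) ≠ 0 := by
    simpa using hb0
  rw [map_div₀, mulHeight₁_div_eq_mulHeight, mulHeight₁_div_eq_mulHeight]
  have hx : (![(a : K), (b : K)] : Fin 2 → K) ≠ 0 := by
    intro h
    exact hb0 (by simpa using congrFun h 1)
  have hxL : (![algebraMap K L (a : K), algebraMap K L (b : K)] : Fin 2 → L) ≠ 0 := by
    intro h
    exact hb0L (by simpa using congrFun h 1)
  have hx' : (![a, b] : Fin 2 → 𝓞 K) ≠ 0 := by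
    intro h
    have := congrFun h 1
    exact nonZeroDivisors.ne_zero hb (by simpa using this)
  have hxL' : (![algebraMap (𝓞 K) (𝓞 L) a, algebraMap (𝓞 K) (𝓞 L) b] : Fin 2 → 𝓞 L) ≠ 0 := by
    intro h
    have := congrFun h 1
    have h2 : algebraMap (𝓞 K) (𝓞 L) b = 0 := by simpa using this
    exact nonZeroDivisors.ne_zero hb ((map_eq_zero_iff _
      (FaithfulSMul.algebraMap_injective (𝓞 K) (𝓞 L))).mp h2)
  rw [show ((algebraMap (𝓞 K) K) a) = (a : K) from rfl, show ((algebraMap (𝓞 K) K) b) = (b : K)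
    from rfl, NumberField.mulHeight_eq hx, NumberField.mulHeight_eq hxL]
  have e1 := NumberField.absNorm_mul_finprod_finitePlace_eq_one hx'
  have e2 := NumberField.absNorm_mul_finprod_finitePlace_eq_one hxL'
  have e3 : Ideal.span (Set.range (![algebraMap (𝓞 K) (𝓞 L) a, algebraMap (𝓞 K) (𝓞 L) b]
      : Fin 2 → 𝓞 L)) = (Ideal.span (Set.range (![a, b] : Fin 2 → 𝓞 K))).map
        (algebraMap (𝓞 K) (𝓞 L)) := by
    rw [Ideal.map_span]
    congr 1
    simp [Set.image_insert_eq, Set.image_singleton]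
  rw [e3, Ideal.absNorm_algebraMap] at e2
  have hfr : Module.finrank (𝓞 K) (𝓞 L) = Module.finrank K L :=
    (IsFractionRing.finrank_eq (𝓞 K) K (𝓞 L) L).symm
  rw [hfr] at e2
  have m1 : ∀ v : FinitePlace K, (⨆ i, v (![(a : K), (b : K)] i)) =
      ⨆ i, v ((![a, b] i : 𝓞 K) : K) := fun v => by
    congr 1; funext i; fin_cases i <;> rfl
  have m2 : ∀ v : FinitePlace L,
      (⨆ i, v (![algebraMap K L (a : K), algebraMap K L (b : K)] i)) =
      ⨆ i, v ((![algebraMap (𝓞 K) (𝓞 L) a, algebraMap (𝓞 K) (𝓞 L) b] i : 𝓞 L) : L) :=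
    fun v => by
      congr 1; funext i; fin_cases i <;> rfl
  have m3 : ∀ v : InfinitePlace K, (⨆ i, v (![(a : K), (b : K)] i)) =
      max (v (a : K)) (v (b : K)) := fun v => by
    rw [iSup_two]; rfl
  have m4 : ∀ v : InfinitePlace L,
      (⨆ i, v (![algebraMap K L (a : K), algebraMap K L (b : K)] i)) =
      max (v (algebraMap K L (a : K))) (v (algebraMap K L (b : K))) := fun v => by
    rw [iSup_two]; rfl
  simp only [m1, m2, m3, m4]
  rw [prod_infinite_base (K := K) (L := L) max (a : K) (b : K), mul_pow]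
  congr 1
  set B := ∏ᶠ v : FinitePlace K, ⨆ i, v ((![a, b] i : 𝓞 K) : K)
  set B' := ∏ᶠ v : FinitePlace L,
    ⨆ i, v ((![algebraMap (𝓞 K) (𝓞 L) a, algebraMap (𝓞 K) (𝓞 L) b] i : 𝓞 L) : L)
  set N := (Ideal.span (Set.range (![a, b] : Fin 2 → 𝓞 K))).absNorm
  have hN : (N : ℝ) ≠ 0 := by
    intro h
    rw [h, zero_mul] at e1
    exact zero_ne_one e1
  have e4 : ((N : ℝ) ^ Module.finrank K L) * B' = ((N : ℝ) ^ Module.finrank K L) *
      B ^ Module.finrank K L := by
    rw [← mul_pow, e1, one_pow]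
    exact_mod_cast e2
  exact mul_left_cancel₀ (pow_ne_zero _ hN) e4

theorem logHeight₁_base (x : K) :
    logHeight₁ (algebraMap K L x) = Module.finrank K L * logHeight₁ x := by
  rw [logHeight₁_eq_log_mulHeight₁, logHeight₁_eq_log_mulHeight₁, mulHeight₁_base, Real.log_pow]

end

/-- The absolute height can be computed in every number field. -/
theorem abs_eq {L Ω : Type*} [Field L] [NumberField L] [Field Ω] [CharZero Ω] [Algebra L Ω]
    (x : L) : absLogHeight₁ (algebraMap L Ω x) = logHeight₁ x / Module.finrank ℚ L := by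
  have hx : IsIntegral ℚ (algebraMap L Ω x) := by
    have h1 : IsIntegral ℚ x := Algebra.IsIntegral.isIntegral x
    have h2 := h1.map (algebraMap L Ω).toRatAlgHom
    simpa using h2
  unfold absLogHeight₁ absMulHeight₁
  rw [dif_pos hx]
  have hfd : FiniteDimensional ℚ ℚ⟮algebraMap L Ω x⟯ :=
    IntermediateField.adjoin.finiteDimensional hx
  have hnf : NumberField ℚ⟮algebraMap L Ω x⟯ := {}
  have hmp : Polynomial.aeval x (minpoly ℚ (algebraMap L Ω x)) = 0 := by
    have h1 := minpoly.aeval ℚ (algebraMap L Ω x)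
    rw [Polynomial.aeval_algebraMap_apply] at h1
    exact (map_eq_zero_iff _ (algebraMap L Ω).injective).mp h1
  have hne : minpoly ℚ (algebraMap L Ω x) ≠ 0 := minpoly.ne_zero hx
  have hroot : x ∈ (minpoly ℚ (algebraMap L Ω x)).aroots L :=
    (Polynomial.mem_aroots.mpr ⟨hne, hmp⟩)
  let ψ : ℚ⟮algebraMap L Ω x⟯ →ₐ[ℚ] L :=
    (IntermediateField.algHomAdjoinIntegralEquiv ℚ hx).symm ⟨x, hroot⟩
  have hψ : ψ (IntermediateField.AdjoinSimple.gen ℚ (algebraMap L Ω x)) = x :=
    IntermediateField.algHomAdjoinIntegralEquiv_symm_apply_gen ℚ hx ⟨x, hroot⟩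
  let : Algebra ℚ⟮algebraMap L Ω x⟯ L := ψ.toRingHom.toAlgebra
  have hst : IsScalarTower ℚ ℚ⟮algebraMap L Ω x⟯ L := IsScalarTower.of_algebraMap_eq'
    (Subsingleton.elim _ _)
  have e1 := logHeight₁_base (K := ℚ⟮algebraMap L Ω x⟯) (L := L)
    (IntermediateField.AdjoinSimple.gen ℚ (algebraMap L Ω x))
  rw [show algebraMap ℚ⟮algebraMap L Ω x⟯ L
    (IntermediateField.AdjoinSimple.gen ℚ (algebraMap L Ω x)) = x from hψ] at e1
  have e2 := Module.finrank_mul_finrank ℚ ℚ⟮algebraMap L Ω x⟯ L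
  rw [e1, ← e2, Real.log_rpow (mulHeight₁_pos _), ← logHeight₁_eq_log_mulHeight₁]
  have h3 : (Module.finrank ℚ ℚ⟮algebraMap L Ω x⟯ : ℝ) ≠ 0 := by
    exact_mod_cast (Module.finrank_pos).ne'
  have h4 : (Module.finrank ℚ⟮algebraMap L Ω x⟯ L : ℝ) ≠ 0 := by
    have : FiniteDimensional ℚ⟮algebraMap L Ω x⟯ L :=
      Module.Finite.of_restrictScalars_finite ℚ _ _
    exact_mod_cast (Module.finrank_pos).ne'
  push_cast
  field_simp

end Pool.Agent.UH
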