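import Pool.Agent.Arb.DegB

/-!
# Collisions of `x ↦ x ^ q + c` and ramification, `q` a power of a prime
-/

set_option autoImplicit false

open IsDedekindDomain NumberField
open scoped WithZero

namespace Pool.Agent.UH

open Pool.Agent.Arb.DB (od u_ne od_mul od_pos od_nonneg od_lt od_le od_eq od_add_eq od_add_ge
  od_pow)

/-- `x ↦ x ^ q + c` -/
def fc {R : Type*} [Semiring R] (q : ℕ) (c x : R) : R := x ^ q + c

theorem map_fc {A B : Type*} [Semiring A] [Semiring B] (g : A →+* B) (q : ℕ) (c x : A) :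
    g (fc q c x) = fc q (g c) (g x) := by
  simp [fc]

theorem map_iter_fc {A B : Type*} [Semiring A] [Semiring B] (g : A →+* B) (q : ℕ) (c x : A)
    (n : ℕ) : g ((fc q c)^[n] x) = (fc q (g c))^[n] (g x) := by
  induction n generalizing x with
  | zero => rfl
  | succ n ih => rw [Function.iterate_succ_apply, Function.iterate_succ_apply, ih, map_fc]

theorem seq_bound (q : ℕ) (hq : 2 ≤ q) (ρ : ℤ) (hρ : 0 < ρ) (d : ℕ → ℤ) (N : ℕ) (h0 : 0 < d 0)
    (h1 : ∀ t < N, (q - 1 : ℤ) * d t < ρ → d (t + 1) = q * d t)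
    (h2 : ∀ t < N, ρ ≤ (q - 1 : ℤ) * d t → d t + ρ ≤ d (t + 1)) :
    ∃ m : ℕ, (m : ℤ) * ρ ≤ d N ∧ (q : ℤ) ^ N ≤ q ^ m * (q * ρ) := by
  have hq' : (2 : ℤ) ≤ q := by exact_mod_cast hq
  have key : ∀ t ≤ N, 0 < d t ∧ ∃ m : ℕ, (m : ℤ) * ρ ≤ d t ∧
      (q : ℤ) ^ t ≤ q ^ m * min (d t) (q * ρ) := by
    intro t
    induction t with
    | zero =>
      intro _
      refine ⟨h0, 0, by simpa using h0.le, ?_⟩
      have : (1 : ℤ) ≤ min (d 0) (q * ρ) := le_min (by omega) (by nlinarith)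
      simpa using this
    | succ t ih =>
      intro ht
      obtain ⟨hpos, m, hm1, hm2⟩ := ih (by omega)
      rcases lt_or_ge ((q - 1 : ℤ) * d t) ρ with h | h
      · have h3 := h1 t (by omega) h
        have hdr : d t < ρ := by nlinarith
        have hm0 : m = 0 := by
          by_contra hne
          have : (1 : ℤ) ≤ m := by omega
          nlinarith
        subst hm0
        refine ⟨by rw [h3]; positivity, 0, by rw [h3]; simp; positivity, ?_⟩
        rw [min_eq_left (by nlinarith)] at hm2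
        rw [h3, min_eq_left (by nlinarith), pow_succ]
        simp only [pow_zero, one_mul] at hm2 ⊢
        nlinarith
      · have h3 := h2 t (by omega) h
        refine ⟨by omega, m + 1, by push_cast; linarith, ?_⟩
        have h4 : min (d t) (q * ρ) ≤ min (d (t + 1)) (q * ρ) := min_le_min_right _ (by omega)
        have h5 : (0 : ℤ) < (q : ℤ) ^ m := by positivity
        rw [pow_succ, pow_succ]
        have h6 : (q : ℤ) ^ m * min (d t) (q * ρ) ≤ q ^ m * min (d (t + 1)) (q * ρ) :=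
          mul_le_mul_of_nonneg_left h4 h5.le
        nlinarith
  obtain ⟨_, m, h3, h4⟩ := key N le_rfl
  refine ⟨m, h3, h4.trans ?_⟩
  have h5 : (0 : ℤ) < (q : ℤ) ^ m := by positivity
  exact mul_le_mul_of_nonneg_left (min_le_right _ _) h5.le

section
variable {F : Type*} [Field F] (u : Valuation F ℤᵐ⁰)

theorem fc_int {q : ℕ} {c x : F} (hc : u c ≤ 1) (hx : u x ≤ 1) : u (fc q c x) ≤ 1 := by
  unfold fc
  refine Valuation.map_add_le u ?_ hc
  rw [map_pow]
  exact pow_le_one₀ zero_le hx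

theorem iter_int {q : ℕ} {c x : F} (hc : u c ≤ 1) (hx : u x ≤ 1) (n : ℕ) :
    u ((fc q c)^[n] x) ≤ 1 := by
  induction n generalizing x with
  | zero => exact hx
  | succ n ih => rw [Function.iterate_succ_apply]; exact ih (fc_int u hc hx)

theorem fc_gt {q : ℕ} (hq : 1 ≤ q) {c x : F} (hc : u c ≤ 1) (hx : 1 < u x) :
    u (fc q c x) = u x ^ q ∧ 1 < u (fc q c x) := by
  have h1 : 1 < u x ^ q := one_lt_pow₀ hx (by omega)
  have h2 : u (fc q c x) = u x ^ q := by
    unfold fc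
    rw [Valuation.map_add_eq_of_lt_left u (by rw [map_pow]; exact hc.trans_lt h1), map_pow]
  exact ⟨h2, by rw [h2]; exact h1⟩

theorem iter_gt {q : ℕ} (hq : 1 ≤ q) {c x : F} (hc : u c ≤ 1) (hx : 1 < u x) (n : ℕ) :
    1 < u ((fc q c)^[n] x) := by
  induction n generalizing x with
  | zero => exact hx
  | succ n ih => rw [Function.iterate_succ_apply]; exact ih (fc_gt u hq hc hx).2

/-- The binomial expansion. -/
theorem expand {p s : ℕ} (hp : p.Prime) {z δ : F} (hz : u z ≤ 1) (hδ : u δ ≤ 1) :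
    ∃ r : F, u r ≤ 1 ∧ (z + δ) ^ p ^ s - z ^ p ^ s = δ * (δ ^ (p ^ s - 1) + p * r) := by
  obtain ⟨r, hr⟩ := exists_add_pow_prime_pow_eq hp (⟨z, hz⟩ : u.integer) ⟨δ, hδ⟩ s
  refine ⟨z * r, ?_, ?_⟩
  · rw [map_mul]
    exact mul_le_one₀ hz zero_le r.2
  · have h := congrArg (fun t : u.integer => (t : F)) hr
    simp only [Subring.coe_add, Subring.coe_pow, Subring.coe_mul, Subring.coe_natCast] at h
    have hq : 1 ≤ p ^ s := Nat.one_le_pow _ _ hp.pos
    have e : δ ^ p ^ s = δ * δ ^ (p ^ s - 1) := by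
      rw [← pow_succ']; congr 1; omega
    rw [h, e]
    ring

/-- One step for a difference of powers. -/
theorem diff_step {p s : ℕ} (hp : p.Prime) (hs : 0 < s) (hp0 : (p : F) ≠ 0) (hup : u (p : F) < 1)
    {z δ : F} (hz : u z ≤ 1) (hδ : u δ < 1) (hne : (z + δ) ^ p ^ s ≠ z ^ p ^ s) :
    (((p ^ s : ℕ) - 1 : ℤ) * od u δ < od u (p : F) →
      od u ((z + δ) ^ p ^ s - z ^ p ^ s) = (p ^ s : ℕ) * od u δ) ∧
    (od u (p : F) ≤ ((p ^ s : ℕ) - 1 : ℤ) * od u δ →
      od u δ + od u (p : F) ≤ od u ((z + δ) ^ p ^ s - z ^ p ^ s)) ∧ 0 < od u δ := by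
  obtain ⟨r, hr1, hr2⟩ := expand u (s := s) hp hz hδ.le
  have hne' : δ * (δ ^ (p ^ s - 1) + p * r) ≠ 0 := by rw [← hr2]; exact sub_ne_zero.mpr hne
  have hδ0 : δ ≠ 0 := left_ne_zero_of_mul hne'
  have h4 : δ ^ (p ^ s - 1) + p * r ≠ 0 := right_ne_zero_of_mul hne'
  have hq : 1 ≤ p ^ s := Nat.one_le_pow _ _ hp.pos
  have hcast : (((p ^ s - 1 : ℕ)) : ℤ) = ((p ^ s : ℕ) : ℤ) - 1 := by
    rw [Nat.cast_sub hq]; simp
  have hodp : od u (δ ^ (p ^ s - 1)) = ((p ^ s : ℕ) - 1 : ℤ) * od u δ := by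
    rw [od_pow u (p ^ s - 1) u (x := δ) (y := δ ^ (p ^ s - 1)) (map_pow _ _ _), hcast]
  have hpr : (p : F) * r = 0 ∨ od u (p : F) ≤ od u ((p : F) * r) := by
    by_cases hr0 : r = 0
    · left; rw [hr0, mul_zero]
    · right
      rw [od_mul u hp0 hr0]
      have := (od_nonneg u hr0).mp hr1
      linarith
  refine ⟨fun h => ?_, fun h => ?_, (od_pos u hδ0).mp hδ⟩
  · rw [hr2, od_mul u hδ0 h4]
    have h6 := (od_add_eq u (pow_ne_zero (p ^ s - 1) hδ0) (y := (p : F) * r) (by
      rcases hpr with h5 | h5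
      · exact Or.inl h5
      · exact Or.inr (by rw [hodp]; exact h.trans_le h5))).2
    rw [h6, hodp]; ring
  · rw [hr2, od_mul u hδ0 h4]
    have h6 := od_add_ge u h4 (m := od u (p : F)) (Or.inr (by rw [hodp]; exact h)) hpr
    linarith

/-- smallness of differences, backwards -/
theorem small_back {p s : ℕ} (hp : p.Prime) (hup : u (p : F) < 1) {z δ : F} (hz : u z ≤ 1)
    (hδ : u δ ≤ 1) (h : u ((z + δ) ^ p ^ s - z ^ p ^ s) < 1) : u δ < 1 := by
  obtain ⟨r, hr1, hr2⟩ := expand u (s := s) hp hz hδ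
  by_contra hcon
  push Not at hcon
  have h1 : u δ = 1 := le_antisymm hδ hcon
  have h2 : u ((p : F) * r) < 1 := by
    rw [map_mul]
    calc u (p : F) * u r ≤ u (p : F) * 1 := by gcongr
      _ < 1 := by rw [mul_one]; exact hup
  have h3 : u (δ ^ (p ^ s - 1) + p * r) = 1 := by
    rw [Valuation.map_add_eq_of_lt_left u (by rw [map_pow, h1, one_pow]; exact h2), map_pow, h1,
      one_pow]
  rw [hr2, map_mul, h1, h3, one_mul] at h
  exact lt_irrefl _ h

/-- smallness of differences, forwards -/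
theorem small_fwd {p s : ℕ} (hp : p.Prime) (hs : 0 < s) (hup : u (p : F) < 1) {z δ : F}
    (hz : u z ≤ 1) (hδ : u δ < 1) : u ((z + δ) ^ p ^ s - z ^ p ^ s) < 1 := by
  obtain ⟨r, hr1, hr2⟩ := expand u (s := s) hp hz hδ.le
  rw [hr2, map_mul]
  have h1 : u (δ ^ (p ^ s - 1) + p * r) ≤ 1 := by
    refine Valuation.map_add_le u ?_ ?_
    · rw [map_pow]; exact pow_le_one₀ zero_le hδ.le
    · rw [map_mul]; exact mul_le_one₀ hup.le zero_le hr1
  calc u δ * u (δ ^ (p ^ s - 1) + p * r) ≤ u δ * 1 := by gcongr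
    _ < 1 := by rw [mul_one]; exact hδ

theorem fc_sub {q : ℕ} {c x y : F} : fc q c x - fc q c y = (y + (x - y)) ^ q - y ^ q := by
  simp only [fc]
  rw [add_sub_cancel]
  ring

theorem small_of_fc {p s : ℕ} (hp : p.Prime) (hup : u (p : F) < 1) {c x y : F} (hx : u x ≤ 1)
    (hy : u y ≤ 1) (h : u (fc (p ^ s) c x - fc (p ^ s) c y) < 1) : u (x - y) < 1 := by
  rw [fc_sub] at h
  exact small_back u hp hup hy (Valuation.map_sub_le u hx hy) h

theorem small_of_iter {p s : ℕ} (hp : p.Prime) (hup : u (p : F) < 1) {c x y : F} (hc : u c ≤ 1)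
    (hx : u x ≤ 1) (hy : u y ≤ 1) {n : ℕ}
    (h : u ((fc (p ^ s) c)^[n] x - (fc (p ^ s) c)^[n] y) < 1) : u (x - y) < 1 := by
  induction n generalizing x y with
  | zero => exact h
  | succ n ih =>
    rw [Function.iterate_succ_apply, Function.iterate_succ_apply] at h
    exact small_of_fc u hp hup hx hy (ih (fc_int u hc hx) (fc_int u hc hy) h)

theorem small_iter {p s : ℕ} (hp : p.Prime) (hs : 0 < s) (hup : u (p : F) < 1) {c x y : F}
    (hc : u c ≤ 1) (hy : u y ≤ 1) (hxy : u (x - y) < 1) (n : ℕ) :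
    u ((fc (p ^ s) c)^[n] x - (fc (p ^ s) c)^[n] y) < 1 := by
  induction n generalizing x y with
  | zero => exact hxy
  | succ n ih =>
    rw [Function.iterate_succ_apply, Function.iterate_succ_apply]
    apply ih (fc_int u hc hy)
    rw [fc_sub]
    exact small_fwd u hp hs hup hy hxy

/-- The growth of differences along two orbits in the unit disc. -/
theorem orbit_bound {p s : ℕ} (hp : p.Prime) (hs : 0 < s) (hp0 : (p : F) ≠ 0)
    (hup : u (p : F) < 1) {c x y : F} (hc : u c ≤ 1) (hy : u y ≤ 1)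
    (hxy : u (x - y) < 1) (N : ℕ) (hne : (fc (p ^ s) c)^[N] x ≠ (fc (p ^ s) c)^[N] y) :
    ∃ m : ℕ, (m : ℤ) * od u (p : F) ≤ od u ((fc (p ^ s) c)^[N] x - (fc (p ^ s) c)^[N] y) ∧
      ((p ^ s : ℕ) : ℤ) ^ N ≤ ((p ^ s : ℕ) : ℤ) ^ m * ((p ^ s : ℕ) * od u (p : F)) := by
  have hnet : ∀ t ≤ N, (fc (p ^ s) c)^[t] x ≠ (fc (p ^ s) c)^[t] y := by
    intro t ht h
    apply hne
    obtain ⟨r, rfl⟩ : ∃ r, N = r + t := ⟨N - t, by omega⟩
    rw [Function.iterate_add_apply, Function.iterate_add_apply, h]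
  have hq2 : 2 ≤ p ^ s := by
    calc 2 ≤ p := hp.two_le
      _ = p ^ 1 := (pow_one p).symm
      _ ≤ p ^ s := Nat.pow_le_pow_right hp.pos hs
  have step := fun t (ht : t < N) => diff_step u hp hs hp0 hup (z := (fc (p ^ s) c)^[t] y)
      (δ := (fc (p ^ s) c)^[t] x - (fc (p ^ s) c)^[t] y) (iter_int u hc hy t)
      (small_iter u hp hs hup hc hy hxy t) (by
        have := hnet (t + 1) (by omega)
        rw [Function.iterate_succ_apply', Function.iterate_succ_apply', ← sub_ne_zero, fc_sub,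
          sub_ne_zero] at this
        exact this)
  refine seq_bound (p ^ s) hq2 (od u (p : F)) ((od_pos u hp0).mp hup)
    (fun t => od u ((fc (p ^ s) c)^[t] x - (fc (p ^ s) c)^[t] y)) N
    ((od_pos u (sub_ne_zero.mpr (hnet 0 (by omega)))).mp hxy) ?_ ?_
  · intro t ht hlt
    have := (step t ht).1 hlt
    simp only [Function.iterate_succ_apply']
    rw [fc_sub]; exact this
  · intro t ht hge
    have := (step t ht).2.1 hge
    simp only [Function.iterate_succ_apply']
    rw [fc_sub]; exact this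

/-- nontrivial `p ^ s`-th roots of unity are not too close to `1` -/
theorem root_far {q : ℕ} (hq : 1 ≤ q) (hq0 : (q : F) ≠ 0) {w : F} (hw : w ^ q = 1)
    (hw1 : w ≠ 1) : w - 1 ≠ 0 ∧ od u (w - 1) ≤ od u (q : F) := by
  have h1 : w - 1 ≠ 0 := sub_ne_zero.mpr hw1
  refine ⟨h1, ?_⟩
  have huw : u w ≤ 1 := by
    by_contra hcon
    push Not at hcon
    have := one_lt_pow₀ hcon (by omega : q ≠ 0)
    rw [← map_pow, hw, map_one] at this
    exact lt_irrefl _ this
  have h2 : ∑ i ∈ Finset.range q, w ^ i = 0 := by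
    have h4 := geom_sum_mul w q
    rw [hw, sub_self] at h4
    exact (mul_eq_zero.mp h4).resolve_right h1
  -- each `w ^ i - 1` is a multiple of `w - 1`
  have h3 : (q : F) = -∑ i ∈ Finset.range q, (w ^ i - 1) := by
    rw [Finset.sum_sub_distrib, h2]; simp
  have h4 : u (q : F) ≤ u (w - 1) := by
    rw [h3, Valuation.map_neg]
    refine Valuation.map_sum_le u fun i _ => ?_
    rw [← geom_sum_mul w i, map_mul]
    calc u (∑ j ∈ Finset.range i, w ^ j) * u (w - 1) ≤ 1 * u (w - 1) := by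
          gcongr
          refine Valuation.map_sum_le u fun j _ => ?_
          rw [map_pow]
          exact pow_le_one₀ zero_le huw
      _ = u (w - 1) := one_mul _
  exact (od_le u hq0 h1).mp h4

theorem od_iter_lt {p s : ℕ} (hp : p.Prime) (hs : 0 < s) (hp0 : (p : F) ≠ 0)
    (hup : u (p : F) < 1) {c x y : F} (hc : u c ≤ 1) (hy : u y ≤ 1)
    (hxy : u (x - y) < 1) {n : ℕ} (hn : 0 < n)
    (hne : (fc (p ^ s) c)^[n] x ≠ (fc (p ^ s) c)^[n] y) :
    od u (x - y) < od u ((fc (p ^ s) c)^[n] x - (fc (p ^ s) c)^[n] y) := by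
  have hq2 : (2 : ℤ) ≤ (p ^ s : ℕ) := by
    exact_mod_cast (show 2 ≤ p ^ s by
      calc 2 ≤ p := hp.two_le
        _ = p ^ 1 := (pow_one p).symm
        _ ≤ p ^ s := Nat.pow_le_pow_right hp.pos hs)
  induction n with
  | zero => omega
  | succ n ih =>
    have e1 : (fc (p ^ s) c)^[n + 1] x = fc (p ^ s) c ((fc (p ^ s) c)^[n] x) :=
      Function.iterate_succ_apply' _ _ _
    have e2 : (fc (p ^ s) c)^[n + 1] y = fc (p ^ s) c ((fc (p ^ s) c)^[n] y) :=
      Function.iterate_succ_apply' _ _ _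
    have hne' : (fc (p ^ s) c)^[n] x ≠ (fc (p ^ s) c)^[n] y := by
      intro h; apply hne; rw [e1, e2, h]
    rw [e1, e2] at hne ⊢
    rw [← sub_ne_zero, fc_sub, sub_ne_zero] at hne
    obtain ⟨s1, s2, s3⟩ := diff_step u hp hs hp0 hup (z := (fc (p ^ s) c)^[n] y)
      (δ := (fc (p ^ s) c)^[n] x - (fc (p ^ s) c)^[n] y) (iter_int u hc hy n)
      (small_iter u hp hs hup hc hy hxy n) hne
    have h4 : od u ((fc (p ^ s) c)^[n] x - (fc (p ^ s) c)^[n] y) <
        od u (fc (p ^ s) c ((fc (p ^ s) c)^[n] x) - fc (p ^ s) c ((fc (p ^ s) c)^[n] y)) := by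
      rw [fc_sub]
      rcases lt_or_ge ((((p ^ s : ℕ)) - 1 : ℤ) *
        od u ((fc (p ^ s) c)^[n] x - (fc (p ^ s) c)^[n] y)) (od u (p : F)) with h | h
      · rw [s1 h]; nlinarith
      · have := s2 h
        have h5 := (od_pos u hp0).mp hup
        linarith
    rcases Nat.eq_zero_or_pos n with rfl | hn'
    · simpa using h4
    · exact (ih hn' hne').trans h4

/-- Outside of the unit disc. -/
theorem outside {p s : ℕ} (hp : p.Prime) (hs : 0 < s) (hp0 : (p : F) ≠ 0)
    (hup : u (p : F) < 1) {c x y : F} (hc : u c ≤ 1) (hy : 1 < u y) (N : ℕ)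
    (heq : (fc (p ^ s) c)^[N + 1] x = (fc (p ^ s) c)^[N + 1] y)
    (hne : (fc (p ^ s) c)^[N] x ≠ (fc (p ^ s) c)^[N] y) :
    ∃ m : ℕ, (m : ℤ) ≤ s ∧
      ((p ^ s : ℕ) : ℤ) ^ N ≤ ((p ^ s : ℕ) : ℤ) ^ m * ((p ^ s : ℕ) * od u (p : F)) := by
  have hq2 : 2 ≤ p ^ s := by
    calc 2 ≤ p := hp.two_le
      _ = p ^ 1 := (pow_one p).symm
      _ ≤ p ^ s := Nat.pow_le_pow_right hp.pos hs
  have hρ := (od_pos u hp0).mp hup
  set q := p ^ s with hq
  -- the ratios
  set X : ℕ → F := fun t => (fc q c)^[t] x with hX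
  set Y : ℕ → F := fun t => (fc q c)^[t] y with hY
  have hY1 : ∀ t, 1 < u (Y t) := fun t => iter_gt u (by omega) hc hy t
  have hY0 : ∀ t, Y t ≠ 0 := fun t h => by
    have := hY1 t
    rw [h, map_zero] at this
    exact absurd this (not_lt.mpr zero_le)
  set τ : ℕ → F := fun t => X t / Y t - 1 with hτ
  have hXs : ∀ t, X (t + 1) = X t ^ q + c := fun t => Function.iterate_succ_apply' _ _ _
  have hYs : ∀ t, Y (t + 1) = Y t ^ q + c := fun t => Function.iterate_succ_apply' _ _ _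
  have hXY : ∀ t, X t / Y t = 1 + τ t := fun t => by simp [hτ]
  -- the recursion
  have hc' : ∀ t, u (1 + c / Y t ^ q) = 1 := fun t => by
    have h1 : u (c / Y t ^ q) < 1 := by
      rw [map_div₀, map_pow]
      have h2 : 1 < u (Y t) ^ q := one_lt_pow₀ (hY1 t) (by omega)
      have h3 : u c < u (Y t) ^ q := hc.trans_lt h2
      rw [div_lt_one₀ (zero_lt_one.trans h2)]
      exact h3
    rw [Valuation.map_add_eq_of_lt_left u (by rw [map_one]; exact h1), map_one]
  have hrec : ∀ t, τ (t + 1) = ((1 + τ t) ^ q - 1 ^ q) / (1 + c / Y t ^ q) := fun t => by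
    have h1 : 1 + c / Y t ^ q ≠ 0 := by
      intro h
      have := hc' t
      rw [h, map_zero] at this
      exact zero_ne_one this
    have h2 : Y (t + 1) = Y t ^ q * (1 + c / Y t ^ q) := by
      rw [hYs, mul_add, mul_div_cancel₀ _ (pow_ne_zero q (hY0 t)), mul_one]
    have h3 : X t = Y t * (1 + τ t) := by
      rw [← hXY, mul_div_cancel₀ _ (hY0 t)]
    have h4 : X (t + 1) = Y t ^ q * ((1 + τ t) ^ q + c / Y t ^ q) := by
      rw [hXs, h3, mul_pow, mul_add, mul_div_cancel₀ _ (pow_ne_zero q (hY0 t))]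
    have h5 := hY0 t
    have h6 : Y t ^ q ≠ 0 := pow_ne_zero q h5
    have h7 : X (t + 1) / Y (t + 1) = ((1 + τ t) ^ q + c / Y t ^ q) / (1 + c / Y t ^ q) := by
      rw [h2, h4, mul_div_mul_left _ _ h6]
    have h8 : τ (t + 1) = X (t + 1) / Y (t + 1) - 1 := rfl
    rw [h8, h7, div_sub_one h1]
    congr 1
    rw [one_pow]; ring
  have huτ : ∀ t, u (τ (t + 1)) = u ((1 + τ t) ^ q - 1 ^ q) := fun t => by
    rw [hrec, map_div₀, hc', div_one]
  have hodτ : ∀ t, od u (τ (t + 1)) = od u ((1 + τ t) ^ q - 1 ^ q) := fun t =>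
    od_eq u (huτ t)
  have hτne : ∀ t ≤ N, τ t ≠ 0 := by
    intro t ht h
    apply hne
    have h1 : X t = Y t := by
      have := hXY t
      rw [h, add_zero, div_eq_one_iff_eq (hY0 t)] at this
      exact this
    obtain ⟨r, rfl⟩ : ∃ r, N = r + t := ⟨N - t, by omega⟩
    rw [Function.iterate_add_apply, Function.iterate_add_apply]
    exact congrArg _ h1
  have hone : u (1 : F) ≤ 1 := by rw [map_one]
  -- the end
  have hend : (1 + τ N) ^ q = 1 := by
    have h1 : X (N + 1) = Y (N + 1) := heq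
    rw [hXs, hYs, add_left_inj] at h1
    rw [← hXY, div_pow, h1, div_self (pow_ne_zero q (hY0 N))]
  have hw1 : 1 + τ N ≠ 1 := by
    intro h
    exact hτne N le_rfl (by simpa using h)
  have hq0F : ((q : ℕ) : F) ≠ 0 := by
    rw [hq]; push_cast; exact pow_ne_zero _ hp0
  obtain ⟨_, hfar⟩ := root_far u (by omega) hq0F hend hw1
  rw [add_sub_cancel_left] at hfar
  have hodq : od u ((q : ℕ) : F) = s * od u (p : F) := by
    rw [hq]
    push_cast
    exact od_pow u s u (map_pow _ _ _)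
  -- smallness
  have hback : ∀ t, u ((1 + τ t) ^ q - 1 ^ q) < 1 → u (τ t) < 1 := by
    intro t h
    have h1 : u (1 + τ t) ≤ 1 := by
      by_contra hcon
      push Not at hcon
      have h2 : 1 < u ((1 + τ t) ^ q) := by
        rw [map_pow]; exact one_lt_pow₀ hcon (by omega)
      have h3 : u ((1 + τ t) ^ q - 1 ^ q) = u ((1 + τ t) ^ q) := by
        rw [one_pow, sub_eq_add_neg, Valuation.map_add_eq_of_lt_left u (by
          rw [Valuation.map_neg, map_one]; exact h2)]
      rw [h3] at h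
      exact lt_asymm h h2
    have h2 : u (τ t) ≤ 1 := by
      have : τ t = (1 + τ t) - 1 := by ring
      rw [this]
      exact Valuation.map_sub_le u h1 hone
    exact small_back u hp hup hone h2 h
  have hsm : ∀ t ≤ N, u (τ t) < 1 := by
    intro t ht
    obtain ⟨r, hr⟩ : ∃ r, N = t + r := ⟨N - t, by omega⟩
    induction r generalizing t with
    | zero =>
      apply hback
      have : t = N := by omega
      rw [this, hend, one_pow, sub_self, map_zero]
      exact zero_lt_one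
    | succ r ih =>
      apply hback
      rw [← huτ]
      exact ih (t + 1) (by omega) (by omega)
  have step := fun t (ht : t < N) => diff_step u hp hs hp0 hup (z := (1 : F)) (δ := τ t) hone
      (hsm t ht.le) (by
        rw [← sub_ne_zero]
        intro h
        have h1 := hrec t
        rw [h, zero_div] at h1
        exact hτne (t + 1) (by omega) h1)
  obtain ⟨m, hm1, hm2⟩ := seq_bound q hq2 (od u (p : F)) hρ (fun t => od u (τ t)) N
    ((od_pos u (hτne 0 (by omega))).mp (hsm 0 (by omega)))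
    (fun t ht h => by
      simp only [hodτ]
      exact (step t ht).1 h)
    (fun t ht h => by
      simp only [hodτ]
      exact (step t ht).2.1 h)
  refine ⟨m, ?_, hm2⟩
  have h9 : (m : ℤ) * od u (p : F) ≤ s * od u (p : F) := by
    rw [← hodq]; exact hm1.trans hfar
  exact le_of_mul_le_mul_right h9 hρ

end

end Pool.Agent.UH
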