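import Pool.Agent.UH.HPoly
import Pool.Agent.UH.Loc

/-!
# Functoriality of the absolute height
-/

set_option autoImplicit false

open NumberField Height Polynomial

namespace Pool.Agent.UH

/-- Local estimate for a root. -/
theorem root_local {L : Type*} [Field L] (v : AbsoluteValue L ℝ) (m : ℕ) (hm : 0 < m)
    (c : ℕ → L) (y : L) (h : y ^ m + ∑ i ∈ Finset.range m, c i * y ^ i = 0) (A : ℝ)
    (hA : 1 ≤ A)
    (hv : ∀ x : ℕ → L, max (v (∑ i ∈ Finset.range m, x i)) 1 ≤
      A * ∏ i ∈ Finset.range m, max (v (x i)) 1) :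
    max (v y) 1 ≤ A * ∏ i ∈ Finset.range m, max (v (c i)) 1 := by
  have hprod : 1 ≤ ∏ i ∈ Finset.range m, max (v (c i)) 1 :=
    Finset.prod_induction _ (fun r : ℝ => 1 ≤ r) (fun a b ha hb => one_le_mul_of_one_le_of_one_le ha hb)
      le_rfl (fun i _ => le_max_right _ _)
  rcases le_or_gt (v y) 1 with h1 | h1
  · rw [max_eq_right h1]
    exact one_le_mul_of_one_le_of_one_le hA hprod
  have hy0 : y ≠ 0 := by
    rintro rfl
    rw [map_zero] at h1
    linarith
  have hy : y = ∑ i ∈ Finset.range m, (-c i * (y ^ i / y ^ (m - 1))) := by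
    have e : y ^ m = y * y ^ (m - 1) := by
      rw [← pow_succ']; congr 1; omega
    have h2 : y * y ^ (m - 1) = -∑ i ∈ Finset.range m, c i * y ^ i := by
      rw [← e]; linear_combination h
    have h3 : y ^ (m - 1) ≠ 0 := pow_ne_zero _ hy0
    calc y = (y * y ^ (m - 1)) / y ^ (m - 1) := by field_simp
      _ = (-∑ i ∈ Finset.range m, c i * y ^ i) / y ^ (m - 1) := by rw [h2]
      _ = _ := by
        rw [← Finset.sum_neg_distrib, Finset.sum_div]
        refine Finset.sum_congr rfl fun i _ => ?_
        ring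
  calc max (v y) 1 = max (v (∑ i ∈ Finset.range m, (-c i * (y ^ i / y ^ (m - 1))))) 1 := by
        rw [← hy]
    _ ≤ A * ∏ i ∈ Finset.range m, max (v (-c i * (y ^ i / y ^ (m - 1)))) 1 := hv _
    _ ≤ A * ∏ i ∈ Finset.range m, max (v (c i)) 1 := by
        refine mul_le_mul_of_nonneg_left ?_ (by linarith)
        refine Finset.prod_le_prod (fun i _ => by positivity) fun i hi => ?_
        refine max_le_max_right _ ?_
        rw [map_mul, map_neg_eq_map, map_div₀, map_pow, map_pow]
        have hi' := Finset.mem_range.mp hi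
        have h4 : v y ^ i / v y ^ (m - 1) ≤ 1 := by
          rw [div_le_one (by positivity)]
          exact pow_le_pow_right₀ h1.le (by omega)
        calc v (c i) * (v y ^ i / v y ^ (m - 1)) ≤ v (c i) * 1 :=
              mul_le_mul_of_nonneg_left h4 (apply_nonneg _ _)
          _ = v (c i) := mul_one _

theorem root_height {L : Type*} [Field L] [NumberField L] (m : ℕ) (hm : 0 < m)
    (c : ℕ → L) (y : L) (h : y ^ m + ∑ i ∈ Finset.range m, c i * y ^ i = 0) :
    logHeight₁ y ≤ Module.finrank ℚ L * Real.log m + ∑ i ∈ Finset.range m, logHeight₁ (c i) := by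
  have hm1 : (1 : ℝ) ≤ m := by exact_mod_cast hm
  have hne : (Finset.range m).Nonempty := Finset.nonempty_range_iff.mpr hm.ne'
  have hfs : ∀ x : L, (fun v : FinitePlace L => max (v x) 1).HasFiniteMulSupport := by
    intro x
    rcases eq_or_ne x 0 with rfl | hx
    · simp [Function.HasFiniteMulSupport]
    · refine (FinitePlace.hasFiniteMulSupport hx).subset ?_
      intro v hv
      rw [Function.mem_mulSupport] at hv ⊢
      intro h
      apply hv
      rw [h, max_self]
  have hfs2 : (fun v : FinitePlace L => ∏ i ∈ Finset.range m, max (v (c i)) 1).HasFiniteMulSupport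
      := by
    refine (Set.Finite.biUnion (Finset.range m).finite_toSet fun i _ => hfs (c i)).subset ?_
    intro v hv
    rw [Function.mem_mulSupport] at hv
    by_contra hcon
    simp only [Set.mem_iUnion, not_exists] at hcon
    apply hv
    refine Finset.prod_eq_one fun x hx => ?_
    have := hcon x hx
    rw [Function.mem_mulSupport, not_not] at this
    exact this
  have harch : ∀ v : InfinitePlace L, max (v y) 1 ≤
      m * ∏ i ∈ Finset.range m, max (v (c i)) 1 := fun v =>
    root_local v.val m hm c y h m hm1 (fun x => by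
      have := Finset.max_abv_sum_one_le v.val hne x
      rwa [Finset.card_range] at this)
  have hfin : ∀ v : FinitePlace L, max (v y) 1 ≤ ∏ i ∈ Finset.range m, max (v (c i)) 1 :=
    fun v => by
      have hv : IsNonarchimedean (v.val : AbsoluteValue L ℝ) :=
        fun x y => FinitePlace.add_le v x y
      have := root_local v.val m hm c y h 1 le_rfl (fun x => by
        rw [one_mul]
        exact Finset.max_abv_sum_one_le_of_isNonarchimedean hv _ x)
      rw [one_mul] at this
      exact this
  have key : mulHeight₁ y ≤ (m : ℝ) ^ Module.finrank ℚ L *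
      ∏ i ∈ Finset.range m, mulHeight₁ (c i) := by
    have e1 : ∏ i ∈ Finset.range m, mulHeight₁ (c i) =
        (∏ v : InfinitePlace L, ∏ i ∈ Finset.range m, max (v (c i)) 1 ^ v.mult) *
        ∏ᶠ v : FinitePlace L, ∏ i ∈ Finset.range m, max (v (c i)) 1 := by
      rw [finprod_prod_comm _ _ (fun i _ => hfs (c i)), Finset.prod_comm,
        ← Finset.prod_mul_distrib]
      exact Finset.prod_congr rfl fun i _ => NumberField.mulHeight₁_eq (c i)
    rw [e1, NumberField.mulHeight₁_eq, ← mul_assoc, ← InfinitePlace.sum_mult_eq,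
      ← Finset.prod_pow_eq_pow_sum, ← Finset.prod_mul_distrib]
    refine mul_le_mul ?_ ?_ (finprod_nonneg fun v => by positivity) (by positivity)
    · refine Finset.prod_le_prod (fun v _ => by positivity) fun v _ => ?_
      rw [Finset.prod_pow, ← mul_pow]
      exact pow_le_pow_left₀ (by positivity) (harch v) _
    · exact finprod_le_finprod (hfs y) (fun v => by positivity) hfs2 (fun v => hfin v)
  rw [logHeight₁_eq_log_mulHeight₁]
  refine (Real.log_le_log (mulHeight₁_pos y) key).trans ?_
  rw [Real.log_mul (by positivity) (Finset.prod_ne_zero_iff.mpr fun i _ => mulHeight₁_ne_zero _),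
    Real.log_pow, Real.log_prod (fun i _ => mulHeight₁_ne_zero _)]
  exact le_rfl

section
variable {Ω : Type*} [Field Ω] [CharZero Ω] [Algebra.IsAlgebraic ℚ Ω]

/-- A number field containing finitely many given elements. -/
theorem exists_field (S : Set Ω) (hS : S.Finite) :
    ∃ L : IntermediateField ℚ Ω, NumberField L ∧ ∀ x ∈ S, ∃ y : L, (y : Ω) = x := by
  have hfd : FiniteDimensional ℚ (IntermediateField.adjoin ℚ S) :=
    have := hS.to_subtype
    IntermediateField.finiteDimensional_adjoin fun x _ =>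
      (Algebra.IsAlgebraic.isAlgebraic x).isIntegral
  exact ⟨IntermediateField.adjoin ℚ S, ⟨⟩, fun x hx =>
    ⟨⟨x, IntermediateField.subset_adjoin ℚ S hx⟩, rfl⟩⟩

omit [Algebra.IsAlgebraic ℚ Ω] in
theorem abs_coe {L : IntermediateField ℚ Ω} [NumberField L] (y : L) :
    absLogHeight₁ (y : Ω) = logHeight₁ y / Module.finrank ℚ L :=
  abs_eq (L := L) (Ω := Ω) y

theorem abs_nonneg (x : Ω) : 0 ≤ absLogHeight₁ x := by
  obtain ⟨L, hL, h⟩ := exists_field {x} (Set.finite_singleton x)
  obtain ⟨y, rfl⟩ := h x rfl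
  rw [abs_coe]
  exact div_nonneg (zero_le_logHeight₁ y) (by positivity)

theorem abs_pow (x : Ω) (n : ℕ) : absLogHeight₁ (x ^ n) = n * absLogHeight₁ x := by
  obtain ⟨L, hL, h⟩ := exists_field {x} (Set.finite_singleton x)
  obtain ⟨y, rfl⟩ := h x rfl
  have e : ((y ^ n : L) : Ω) = (y : Ω) ^ n := by push_cast; rfl
  rw [← e, abs_coe, abs_coe, logHeight₁_pow]
  ring

theorem abs_add_le (x y : Ω) :
    absLogHeight₁ (x + y) ≤ absLogHeight₁ x + absLogHeight₁ y + Real.log 2 := by
  obtain ⟨L, hL, h⟩ := exists_field {x, y} (by simp)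
  obtain ⟨a, rfl⟩ := h x (by simp)
  obtain ⟨b, rfl⟩ := h y (by simp)
  have hpos : (0 : ℝ) < Module.finrank ℚ L := by exact_mod_cast Module.finrank_pos
  have e : ((a + b : L) : Ω) = (a : Ω) + (b : Ω) := by push_cast; rfl
  rw [← e, abs_coe, abs_coe, abs_coe, ← add_div, div_add' _ _ _ hpos.ne',
    div_le_div_iff_of_pos_right hpos]
  have := logHeight₁_add_le a b
  rw [totalWeight_eq_finrank] at this
  linarith

theorem abs_mul_le (x y : Ω) :
    absLogHeight₁ (x * y) ≤ absLogHeight₁ x + absLogHeight₁ y := by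
  obtain ⟨L, hL, h⟩ := exists_field {x, y} (by simp)
  obtain ⟨a, rfl⟩ := h x (by simp)
  obtain ⟨b, rfl⟩ := h y (by simp)
  have hpos : (0 : ℝ) < Module.finrank ℚ L := by exact_mod_cast Module.finrank_pos
  have e : ((a * b : L) : Ω) = (a : Ω) * (b : Ω) := by push_cast; rfl
  rw [← e, abs_coe, abs_coe, abs_coe, ← add_div, div_le_div_iff_of_pos_right hpos]
  exact logHeight₁_mul_le a b

theorem abs_neg (x : Ω) : absLogHeight₁ (-x) = absLogHeight₁ x := by
  obtain ⟨L, hL, h⟩ := exists_field {x} (Set.finite_singleton x)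
  obtain ⟨y, rfl⟩ := h x rfl
  have e : ((-y : L) : Ω) = -(y : Ω) := by push_cast; rfl
  rw [← e, abs_coe, abs_coe, logHeight₁_neg]

theorem abs_inv (x : Ω) : absLogHeight₁ (x⁻¹) = absLogHeight₁ x := by
  obtain ⟨L, hL, h⟩ := exists_field {x} (Set.finite_singleton x)
  obtain ⟨y, rfl⟩ := h x rfl
  have e : ((y⁻¹ : L) : Ω) = (y : Ω)⁻¹ := by push_cast; rfl
  rw [← e, abs_coe, abs_coe, logHeight₁_inv]

theorem abs_div_le (x y : Ω) :
    absLogHeight₁ (x / y) ≤ absLogHeight₁ x + absLogHeight₁ y := by
  rw [div_eq_mul_inv]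
  have := abs_mul_le x y⁻¹
  rwa [abs_inv] at this

theorem abs_sub_le (x y : Ω) :
    absLogHeight₁ (x - y) ≤ absLogHeight₁ x + absLogHeight₁ y + Real.log 2 := by
  rw [sub_eq_add_neg]
  have := abs_add_le x (-y)
  rwa [abs_neg] at this

/-- The height of a root. -/
theorem abs_root_le (m : ℕ) (hm : 0 < m) (c : ℕ → Ω) (y : Ω)
    (h : y ^ m + ∑ i ∈ Finset.range m, c i * y ^ i = 0) :
    absLogHeight₁ y ≤ Real.log m + ∑ i ∈ Finset.range m, absLogHeight₁ (c i) := by
  obtain ⟨L, hL, hS⟩ := exists_field ({y} ∪ c '' (Finset.range m : Set ℕ))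
    ((Set.finite_singleton y).union ((Finset.finite_toSet _).image c))
  obtain ⟨z, hz⟩ := hS y (by simp)
  have h1 : ∀ i, ∃ d : L, i < m → (d : Ω) = c i := by
    intro i
    by_cases hi : i < m
    · obtain ⟨d, hd⟩ := hS (c i) (Or.inr ⟨i, by simpa using hi, rfl⟩)
      exact ⟨d, fun _ => hd⟩
    · exact ⟨0, fun h => absurd h hi⟩
  choose d hd using h1
  have h2 : z ^ m + ∑ i ∈ Finset.range m, d i * z ^ i = 0 := by
    apply Subtype.ext
    push_cast
    rw [hz, ← h]
    congr 1
    refine Finset.sum_congr rfl fun i hi => ?_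
    rw [hd i (Finset.mem_range.mp hi)]
  have hpos : (0 : ℝ) < Module.finrank ℚ L := by exact_mod_cast Module.finrank_pos
  have h3 := root_height m hm d z h2
  have h4 : ∑ i ∈ Finset.range m, absLogHeight₁ (c i) =
      (∑ i ∈ Finset.range m, logHeight₁ (d i)) / Module.finrank ℚ L := by
    rw [Finset.sum_div]
    refine Finset.sum_congr rfl fun i hi => ?_
    rw [← hd i (Finset.mem_range.mp hi), abs_coe]
  rw [h4, ← hz, abs_coe, ← sub_le_iff_le_add, ← sub_div, div_le_iff₀ hpos]
  linarith

/-- values of a fixed polynomial -/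
theorem abs_eval_le (g : Polynomial Ω) : ∃ A B : ℝ, 0 ≤ A ∧ 0 ≤ B ∧
    ∀ x : Ω, absLogHeight₁ (g.eval x) ≤ A * absLogHeight₁ x + B := by
  induction g using Polynomial.induction_on' with
  | add p q hp hq =>
    obtain ⟨A, B, hA, hB, h1⟩ := hp
    obtain ⟨A', B', hA', hB', h2⟩ := hq
    refine ⟨A + A', B + B' + Real.log 2, by positivity, ?_, fun x => ?_⟩
    · have := Real.log_nonneg (show (1:ℝ) ≤ 2 by norm_num)
      positivity
    · rw [eval_add]
      have := abs_add_le (p.eval x) (q.eval x)
      have h3 := h1 x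
      have h4 := h2 x
      nlinarith
  | monomial n a =>
    refine ⟨n, absLogHeight₁ a, by positivity, abs_nonneg a, fun x => ?_⟩
    rw [eval_monomial]
    have := abs_mul_le a (x ^ n)
    rw [abs_pow] at this
    linarith

/-- one step of the dynamics -/
theorem abs_fc (q : ℕ) (c x : Ω) :
    absLogHeight₁ (fc q c x) ≤ q * absLogHeight₁ x + (absLogHeight₁ c + Real.log 2) ∧
    q * absLogHeight₁ x ≤ absLogHeight₁ (fc q c x) + (absLogHeight₁ c + Real.log 2) := by
  constructor
  · have := abs_add_le (x ^ q) c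
    rw [abs_pow] at this
    unfold fc
    linarith
  · have := abs_sub_le (fc q c x) c
    have e : fc q c x - c = x ^ q := by simp [fc]
    rw [e, abs_pow] at this
    linarith

theorem abs_iter (q : ℕ) (hq : 2 ≤ q) (c x : Ω) (n : ℕ) :
    absLogHeight₁ ((fc q c)^[n] x) ≤
      q ^ n * (absLogHeight₁ x + (absLogHeight₁ c + Real.log 2)) -
        (absLogHeight₁ c + Real.log 2) ∧
    q ^ n * (absLogHeight₁ x - (absLogHeight₁ c + Real.log 2)) +
        (absLogHeight₁ c + Real.log 2) ≤ absLogHeight₁ ((fc q c)^[n] x) := by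
  set δ := absLogHeight₁ c + Real.log 2 with hδ
  have hδ0 : 0 ≤ δ := by
    have h1 := Real.log_nonneg (show (1:ℝ) ≤ 2 by norm_num)
    have h2 := abs_nonneg c
    positivity
  have hq' : (2 : ℝ) ≤ q := by exact_mod_cast hq
  induction n with
  | zero => simp
  | succ n ih =>
    rw [Function.iterate_succ_apply']
    obtain ⟨h1, h2⟩ := abs_fc q c ((fc q c)^[n] x)
    obtain ⟨i1, i2⟩ := ih
    rw [← hδ] at h1 h2
    constructor
    · calc _ ≤ q * absLogHeight₁ ((fc q c)^[n] x) + δ := h1
        _ ≤ q * (q ^ n * (absLogHeight₁ x + δ) - δ) + δ := by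
            gcongr
        _ ≤ _ := by
            rw [pow_succ]
            nlinarith
    · calc q ^ (n + 1) * (absLogHeight₁ x - δ) + δ ≤
            q * (q ^ n * (absLogHeight₁ x - δ) + δ) - δ := by
            rw [pow_succ]
            nlinarith
        _ ≤ q * absLogHeight₁ ((fc q c)^[n] x) - δ := by
            gcongr
        _ ≤ _ := by linarith

end

end Pool.Agent.UH
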