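import Pool.Agent.UH.HBase

/-!
# The heights of the roots of an integral polynomial
-/

set_option autoImplicit false

open NumberField Height Polynomial

namespace Pool.Agent.UH

theorem mahler_le_of_circle (p : ℂ[X]) {B : ℝ} (hB : 1 ≤ B)
    (h : ∀ z : ℂ, ‖z‖ = 1 → ‖p.eval z‖ ≤ B) : p.mahlerMeasure ≤ B := by
  by_cases hp : p = 0
  · rw [hp, mahlerMeasure_zero]; linarith
  rw [mahlerMeasure_def_of_ne_zero hp]
  have h1 : Real.circleAverage (fun z => Real.log ‖p.eval z‖) 0 1 ≤ Real.log B := by
    apply Real.circleAverage_mono_on_of_le_circle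
    · rw [circleIntegrable_def]
      exact p.intervalIntegrable_mahlerMeasure
    · intro z hz
      have hz1 : ‖z‖ = 1 := by
        rw [mem_sphere_zero_iff_norm] at hz
        simpa using hz
      rcases eq_or_ne (p.eval z) 0 with h0 | h0
      · rw [h0, norm_zero, Real.log_zero]
        exact Real.log_nonneg hB
      · exact Real.log_le_log (norm_pos_iff.mpr h0) (h z hz1)
  calc Real.exp _ ≤ Real.exp (Real.log B) := Real.exp_le_exp.mpr h1
    _ = B := Real.exp_log (by linarith)

theorem mahler_prod_le {ι : Type*} (S : Finset ι) (x : ι → ℂ) (H : ℂ[X]) :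
    (∏ i ∈ S, max ‖x i‖ 1) * ‖H.leadingCoeff‖ ≤
      ((∏ i ∈ S, (X - C (x i))) * H).mahlerMeasure := by
  classical
  induction S using Finset.induction_on with
  | empty =>
    simp only [Finset.prod_empty, one_mul]
    exact leadingCoeff_le_mahlerMeasure H
  | insert a S ha ih =>
    rw [Finset.prod_insert ha, Finset.prod_insert ha, mul_assoc, mul_assoc, mahlerMeasure_mul,
      mahlerMeasure_X_sub_C, max_comm ‖x a‖ 1]
    exact mul_le_mul_of_nonneg_left ih (by positivity)

theorem gauss_prod_le {L : Type*} [Field L] (v : AbsoluteValue L ℝ) (hv : IsNonarchimedean v)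
    (S : Finset L) (H : L[X]) :
    (∏ x ∈ S, max (v x) 1) * v H.leadingCoeff ≤
      ((∏ x ∈ S, (X - C x)) * H).gaussNorm v 1 := by
  classical
  induction S using Finset.induction_on with
  | empty =>
    simp only [Finset.prod_empty, one_mul]
    have := H.le_gaussNorm v zero_le_one H.natDegree
    rwa [one_pow, mul_one] at this
  | insert a S ha ih =>
    rw [Finset.prod_insert ha, Finset.prod_insert ha, mul_assoc, mul_assoc,
      gaussNorm_mul hv one_pos]
    refine mul_le_mul ?_ ih (by positivity) (gaussNorm_nonneg _ _ zero_le_one)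
    refine max_le ?_ ?_
    · have := (X - C a).le_gaussNorm v zero_le_one 0
      simpa using this
    · have := (X - C a).le_gaussNorm v zero_le_one 1
      simpa [coeff_X, coeff_C] using this

theorem prod_height_le {L : Type*} [Field L] [NumberField L] (F : L[X]) (hF : F ≠ 0)
    (S : Finset L) (hS : ∀ x ∈ S, F.IsRoot x) (hint : ∀ i, IsIntegral ℤ (F.coeff i))
    {B : ℝ} (hB : 1 ≤ B)
    (harch : ∀ σ : L →+* ℂ, ∀ z : ℂ, ‖z‖ = 1 → ‖(F.map σ).eval z‖ ≤ B) :
    ∏ x ∈ S, mulHeight₁ x ≤ B ^ Module.finrank ℚ L := by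
  classical
  have hdvd : (∏ x ∈ S, (X - C x)) ∣ F := by
    have h1 : S.val ≤ F.roots := by
      rw [Multiset.le_iff_subset S.nodup]
      intro x hx
      exact (mem_roots hF).mpr (hS x hx)
    exact (Multiset.prod_X_sub_C_dvd_iff_le_roots hF S.val).mpr h1
  obtain ⟨H, hH⟩ := hdvd
  have hH0 : H ≠ 0 := by
    rintro rfl
    exact hF (by rw [hH, mul_zero])
  set a := H.leadingCoeff with ha
  have ha0 : a ≠ 0 := leadingCoeff_ne_zero.mpr hH0
  -- the finite places
  have hfin : ∀ v : FinitePlace L, (∏ x ∈ S, max (v x) 1) * v a ≤ 1 := by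
    intro v
    have hv : IsNonarchimedean (v.val : AbsoluteValue L ℝ) := fun x y => FinitePlace.add_le v x y
    refine (gauss_prod_le v.val hv S H).trans ?_
    rw [← hH]
    obtain ⟨i, hi⟩ := F.exists_eq_gaussNorm v.val 1
    rw [hi, one_pow, mul_one]
    have h2 := FinitePlace.norm_le_one (K := L) v.maximalIdeal (⟨F.coeff i, hint i⟩ : 𝓞 L)
    have h3 := FinitePlace.norm_embedding_eq v (F.coeff i)
    change v (F.coeff i) ≤ 1
    rw [← h3]
    exact h2
  have hprodfin : (∏ x ∈ S, ∏ᶠ v : FinitePlace L, max (v x) 1) *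
      ∏ᶠ v : FinitePlace L, v a ≤ 1 := by
    have hs : ∀ x : L, (fun v : FinitePlace L => max (v x) 1).HasFiniteMulSupport := by
      intro x
      rcases eq_or_ne x 0 with rfl | hx
      · simp [Function.HasFiniteMulSupport]
      · refine (FinitePlace.hasFiniteMulSupport hx).subset ?_
        intro v hv
        rw [Function.mem_mulSupport] at hv ⊢
        intro h
        apply hv
        rw [h, max_self]
    have hs2 : (fun v : FinitePlace L => ∏ x ∈ S, max (v x) 1).HasFiniteMulSupport := by
      refine (Set.Finite.biUnion S.finite_toSet fun x _ => hs x).subset ?_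
      intro v hv
      rw [Function.mem_mulSupport] at hv
      by_contra hcon
      simp only [Set.mem_iUnion, not_exists] at hcon
      apply hv
      refine Finset.prod_eq_one fun x hx => ?_
      have := hcon x hx
      rw [Function.mem_mulSupport, not_not] at this
      exact this
    rw [← finprod_prod_comm S _ (fun x _ => hs x),
      ← finprod_mul_distrib hs2 (FinitePlace.hasFiniteMulSupport ha0)]
    refine (finprod_induction (fun r : ℝ => 0 ≤ r ∧ r ≤ 1) ⟨zero_le_one, le_rfl⟩ ?_ ?_).2
    · intro r t hr ht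
      exact ⟨mul_nonneg hr.1 ht.1, mul_le_one₀ hr.2 ht.1 ht.2⟩
    · intro v
      exact ⟨mul_nonneg (Finset.prod_nonneg fun x _ => by positivity) (apply_nonneg _ _),
        hfin v⟩
  have harch' : ∀ v : InfinitePlace L, (∏ x ∈ S, max (v x) 1) * v a ≤ B := by
    intro v
    set σ := v.embedding with hσ
    have hvx : ∀ x : L, v x = ‖σ x‖ := fun x => by
      rw [hσ, InfinitePlace.norm_embedding_eq]
    simp only [hvx]
    have h1 := mahler_prod_le S (fun x => σ x) (H.map σ)
    have h2 : (∏ i ∈ S, (X - C (σ i))) * H.map σ = F.map σ := by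
      rw [hH, Polynomial.map_mul, Polynomial.map_prod]
      simp
    rw [h2, leadingCoeff_map] at h1
    exact h1.trans (mahler_le_of_circle _ hB (harch σ))
  have hprodarch : (∏ x ∈ S, ∏ v : InfinitePlace L, max (v x) 1 ^ v.mult) *
      ∏ v : InfinitePlace L, v a ^ v.mult ≤ B ^ Module.finrank ℚ L := by
    rw [Finset.prod_comm, ← Finset.prod_mul_distrib, ← InfinitePlace.sum_mult_eq,
      ← Finset.prod_pow_eq_pow_sum]
    refine Finset.prod_le_prod (fun v _ => by positivity) fun v _ => ?_
    rw [Finset.prod_pow, ← mul_pow]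
    exact pow_le_pow_left₀ (by positivity) (harch' v) _
  have hpf := prod_abs_eq_one ha0
  calc ∏ x ∈ S, mulHeight₁ x
      = (∏ x ∈ S, ∏ v : InfinitePlace L, max (v x) 1 ^ v.mult) *
        (∏ x ∈ S, ∏ᶠ v : FinitePlace L, max (v x) 1) := by
        rw [← Finset.prod_mul_distrib]
        exact Finset.prod_congr rfl fun x _ => NumberField.mulHeight₁_eq x
    _ = ((∏ x ∈ S, ∏ v : InfinitePlace L, max (v x) 1 ^ v.mult) *
        ∏ v : InfinitePlace L, v a ^ v.mult) *
        ((∏ x ∈ S, ∏ᶠ v : FinitePlace L, max (v x) 1) * ∏ᶠ v : FinitePlace L, v a) := by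
        rw [← mul_one ((∏ x ∈ S, ∏ v : InfinitePlace L, max (v x) 1 ^ v.mult) *
          (∏ x ∈ S, ∏ᶠ v : FinitePlace L, max (v x) 1)), ← hpf]
        ring
    _ ≤ B ^ Module.finrank ℚ L * 1 := by
        refine mul_le_mul hprodarch hprodfin ?_ (by positivity)
        refine mul_nonneg (Finset.prod_nonneg fun x _ => finprod_nonneg fun v => by positivity)
          (finprod_nonneg fun v => apply_nonneg _ _)
    _ = _ := mul_one _

theorem sum_height_le {L : Type*} [Field L] [NumberField L] (F : L[X]) (hF : F ≠ 0)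
    (S : Finset L) (hS : ∀ x ∈ S, F.IsRoot x) (hint : ∀ i, IsIntegral ℤ (F.coeff i))
    {B : ℝ} (hB : 1 ≤ B)
    (harch : ∀ σ : L →+* ℂ, ∀ z : ℂ, ‖z‖ = 1 → ‖(F.map σ).eval z‖ ≤ B) :
    ∑ x ∈ S, logHeight₁ x ≤ Module.finrank ℚ L * Real.log B := by
  have h1 := prod_height_le F hF S hS hint hB harch
  have h2 : ∑ x ∈ S, logHeight₁ x = Real.log (∏ x ∈ S, mulHeight₁ x) := by
    rw [Real.log_prod (fun x _ => mulHeight₁_ne_zero x)]
    rfl
  rw [h2, ← Real.log_pow]
  exact Real.log_le_log (Finset.prod_pos fun x _ => mulHeight₁_pos x) h1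

section
variable {K Ω : Type*} [Field K] [NumberField K] [Field Ω] [CharZero Ω] [Algebra K Ω]

/-- Conjugates have the same height. -/
theorem abs_conj {x y : Ω} (hx : IsIntegral K x) (hy : aeval y (minpoly K x) = 0) :
    absLogHeight₁ y = absLogHeight₁ x := by
  have hfd : FiniteDimensional K (IntermediateField.adjoin K {x}) :=
    IntermediateField.adjoin.finiteDimensional hx
  have hnf : NumberField (IntermediateField.adjoin K {x}) := NumberField.of_module_finite K _
  have hroot : y ∈ (minpoly K x).aroots Ω := Polynomial.mem_aroots.mpr ⟨minpoly.ne_zero hx, hy⟩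
  let ψ : (IntermediateField.adjoin K {x}) →ₐ[K] Ω :=
    (IntermediateField.algHomAdjoinIntegralEquiv K hx).symm ⟨y, hroot⟩
  have hψ : ψ (IntermediateField.AdjoinSimple.gen K x) = y :=
    IntermediateField.algHomAdjoinIntegralEquiv_symm_apply_gen K hx ⟨y, hroot⟩
  have e1 := abs_eq (L := IntermediateField.adjoin K {x}) (Ω := Ω)
    (IntermediateField.AdjoinSimple.gen K x)
  rw [IntermediateField.AdjoinSimple.algebraMap_gen] at e1
  have e2 := @abs_eq (IntermediateField.adjoin K {x}) Ω _ _ _ _ ψ.toRingHom.toAlgebra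
    (IntermediateField.AdjoinSimple.gen K x)
  have e3 : @algebraMap (IntermediateField.adjoin K {x}) Ω _ _ ψ.toRingHom.toAlgebra
    (IntermediateField.AdjoinSimple.gen K x) = y := hψ
  rw [e3] at e2
  rw [e1, e2]

/-- **Height bound for a root of an integral polynomial.** -/
theorem abs_height_bound [IsAlgClosed Ω] (F : K[X]) (hF : F ≠ 0)
    (hint : ∀ i, IsIntegral ℤ (F.coeff i)) {B : ℝ} (hB : 1 ≤ B)
    (harch : ∀ σ : K →+* ℂ, ∀ z : ℂ, ‖z‖ = 1 → ‖(F.map σ).eval z‖ ≤ B)
    {x : Ω} (hx : aeval x F = 0) :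
    (minpoly K x).natDegree * absLogHeight₁ x ≤ Real.log B := by
  classical
  have hxi : IsIntegral K x := (isAlgebraic_iff_isIntegral).mp ⟨F, hF, hx⟩
  let L := IntermediateField.adjoin K ((minpoly K x).rootSet Ω)
  have hsp : ((minpoly K x).map (algebraMap K Ω)).Splits := IsAlgClosed.splits _
  have hfd : FiniteDimensional K L := by
    apply IntermediateField.finiteDimensional_adjoin
    intro y hy
    have h1 := (mem_rootSet.mp hy).2
    exact (isAlgebraic_iff_isIntegral).mp ⟨_, minpoly.ne_zero hxi, h1⟩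
  have hnf : NumberField L := NumberField.of_module_finite K _
  have hmem : ∀ y ∈ (minpoly K x).rootSet Ω, y ∈ L := fun y hy =>
    IntermediateField.subset_adjoin K _ hy
  -- the conjugates in `L`
  set S : Finset L := ((minpoly K x).rootSet Ω).toFinset.subtype (· ∈ L) with hS
  have hcard : S.card = (minpoly K x).natDegree := by
    rw [hS, Finset.card_subtype, Finset.filter_true_of_mem (fun y hy => hmem y
      (Set.mem_toFinset.mp hy)), Set.toFinset_card]
    exact card_rootSet_eq_natDegree (minpoly.irreducible hxi).separable hsp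
  have hroot : ∀ y ∈ S, aeval (y : Ω) (minpoly K x) = 0 := by
    intro y hy
    rw [hS, Finset.mem_subtype, Set.mem_toFinset] at hy
    exact (mem_rootSet.mp hy).2
  have hdvd : minpoly K x ∣ F := minpoly.dvd K x hx
  have hFL : F.map (algebraMap K L) ≠ 0 := by
    rw [Polynomial.map_ne_zero_iff (algebraMap K L).injective]; exact hF
  have hsum := sum_height_le (F.map (algebraMap K L)) hFL S (by
    intro y hy
    obtain ⟨G, hG⟩ := hdvd
    rw [IsRoot, eval_map_algebraMap]
    have h1 : aeval (y : Ω) F = 0 := by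
      rw [hG, map_mul, hroot y hy, zero_mul]
    have h2 : algebraMap L Ω (aeval y F) = 0 := by
      rw [← aeval_algebraMap_apply]; exact h1
    exact (map_eq_zero_iff _ (algebraMap L Ω).injective).mp h2) (by
    intro i
    rw [coeff_map]
    exact (hint i).map (algebraMap K L).toIntAlgHom) hB (by
    intro σ z hz
    rw [Polynomial.map_map]
    exact harch _ z hz)
  have hLpos : (0 : ℝ) < Module.finrank ℚ L := by exact_mod_cast Module.finrank_pos
  have heach : ∀ y ∈ S, logHeight₁ y = Module.finrank ℚ L * absLogHeight₁ x := by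
    intro y hy
    have e1 := abs_eq (L := L) (Ω := Ω) y
    have e2 := abs_conj hxi (hroot y hy)
    have e3 : algebraMap L Ω y = (y : Ω) := rfl
    rw [e3, e2] at e1
    rw [e1]
    field_simp
  rw [Finset.sum_congr rfl heach, Finset.sum_const, hcard, nsmul_eq_mul] at hsum
  have h3 : (Module.finrank ℚ L : ℝ) * ((minpoly K x).natDegree * absLogHeight₁ x) ≤
      Module.finrank ℚ L * Real.log B := by
    calc _ = ((minpoly K x).natDegree : ℝ) * (Module.finrank ℚ L * absLogHeight₁ x) := by ring
      _ ≤ _ := hsum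
  exact le_of_mul_le_mul_left h3 hLpos

end

end Pool.Agent.UH
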