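import Pool.Agent.UH.Loc

/-!
# The norm form of a collision
-/

set_option autoImplicit false

open Matrix

namespace Pool.Agent.UH

/-- The denominators: `w`, `b w ^ q`, ... -/
def den {S : Type*} [CommRing S] (q : ℕ) (b w : S) : ℕ → S
  | 0 => w
  | k + 1 => b * den q b w k ^ q

/-- The numerators. -/
def num {S : Type*} [CommRing S] (q : ℕ) (a b u w : S) : ℕ → S
  | 0 => u
  | k + 1 => b * num q a b u w k ^ q + a * den q b w k ^ q

/-- The numerators of the iterates of a matrix. -/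
def matN {S : Type*} [CommRing S] {D : ℕ} (q : ℕ) (a b : S) (M : Matrix (Fin D) (Fin D) S)
    (w : S) : ℕ → Matrix (Fin D) (Fin D) S
  | 0 => M
  | k + 1 => b • matN q a b M w k ^ q + (a * den q b w k ^ q) • 1

/-- The companion matrix (times the leading coefficient). -/
def cm {S : Type*} [CommRing S] (D : ℕ) (g : ℕ → S) : Matrix (Fin D) (Fin D) S :=
  fun i j => if (i : ℕ) + 1 = D then -g j else if (j : ℕ) = i + 1 then g D else 0

/-- The matrix of `f^k(x) - f^k(y)`. -/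
def AK {S : Type*} [CommRing S] (q : ℕ) (a b : S) (D : ℕ) (g : ℕ → S) (x : S) (k : ℕ) :
    Matrix (Fin D) (Fin D) S :=
  (num q a b x 1 k * den q b (g D) k) • (1 : Matrix (Fin D) (Fin D) S) -
    den q b 1 k • matN q a b (cm D g) (g D) k

/-- The norm form. -/
def FK {S : Type*} [CommRing S] (q : ℕ) (a b : S) (D : ℕ) (g : ℕ → S) (x : S) (k : ℕ) : S :=
  (AK q a b D g x k).det

section nat
variable {S T : Type*} [CommRing S] [CommRing T] (φ : S →+* T)

theorem map_den (q : ℕ) (b w : S) (k : ℕ) : φ (den q b w k) = den q (φ b) (φ w) k := by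
  induction k with
  | zero => rfl
  | succ k ih => simp only [den, map_mul, map_pow, ih]

theorem map_num (q : ℕ) (a b u w : S) (k : ℕ) :
    φ (num q a b u w k) = num q (φ a) (φ b) (φ u) (φ w) k := by
  induction k with
  | zero => rfl
  | succ k ih => simp only [num, map_add, map_mul, map_pow, ih, map_den]

theorem map_matN {D : ℕ} (q : ℕ) (a b : S) (M : Matrix (Fin D) (Fin D) S) (w : S) (k : ℕ) :
    φ.mapMatrix (matN q a b M w k) = matN q (φ a) (φ b) (φ.mapMatrix M) (φ w) k := by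
  induction k with
  | zero => rfl
  | succ k ih =>
    simp only [matN, map_add, ← ih, ← map_den, ← map_pow, ← map_mul]
    congr 1
    · ext i j
      simp [RingHom.mapMatrix_apply, ← Matrix.map_pow]
    · ext i j
      simp [RingHom.mapMatrix_apply, Matrix.one_apply, apply_ite φ]

theorem map_cm (D : ℕ) (g : ℕ → S) : φ.mapMatrix (cm D g) = cm D (fun j => φ (g j)) := by
  ext i j
  simp only [RingHom.mapMatrix_apply, Matrix.map_apply, cm, apply_ite φ, map_neg, map_zero]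

theorem map_AK (q : ℕ) (a b : S) (D : ℕ) (g : ℕ → S) (x : S) (k : ℕ) :
    φ.mapMatrix (AK q a b D g x k) = AK q (φ a) (φ b) D (fun j => φ (g j)) (φ x) k := by
  unfold AK
  rw [map_sub, ← map_cm, ← map_matN, ← map_den, ← map_one φ, ← map_den, ← map_num, ← map_mul]
  congr 1
  · ext i j
    simp [RingHom.mapMatrix_apply, Matrix.one_apply, apply_ite φ]
  · ext i j
    simp [RingHom.mapMatrix_apply]

theorem map_FK (q : ℕ) (a b : S) (D : ℕ) (g : ℕ → S) (x : S) (k : ℕ) :
    φ (FK q a b D g x k) = FK q (φ a) (φ b) D (fun j => φ (g j)) (φ x) k := by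
  unfold FK
  rw [← map_AK, RingHom.map_det]

end nat

section
variable {S : Type*} [CommRing S]

theorem num_eq (q : ℕ) (c b w y : S) (k : ℕ) :
    num q (b * c) b (w * y) w k = den q b w k * (fc q c)^[k] y := by
  induction k with
  | zero => rfl
  | succ k ih =>
    simp only [num, den, ih, Function.iterate_succ_apply']
    unfold fc
    ring

/-- The eigenvector. -/
def vec {D : ℕ} (y : S) : Fin D → S := fun j => y ^ (j : ℕ)

theorem cm_mulVec {D : ℕ} (g : ℕ → S) (y : S)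
    (h : ∑ j ∈ Finset.range (D + 1), g j * y ^ j = 0) :
    (cm D g) *ᵥ (vec y) = (g D * y) • vec y := by
  funext i
  rw [Matrix.mulVec, dotProduct, Pi.smul_apply, smul_eq_mul]
  unfold cm vec
  by_cases hi : (i : ℕ) + 1 = D
  · simp only [if_pos hi]
    rw [Finset.sum_range_succ] at h
    have h1 : ∑ j : Fin D, -g j * y ^ (j : ℕ) = -∑ j ∈ Finset.range D, g j * y ^ j := by
      rw [← Finset.sum_neg_distrib, ← Fin.sum_univ_eq_sum_range (fun j => -(g j * y ^ j)) D]
      exact Finset.sum_congr rfl fun j _ => by ring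
    rw [h1]
    have h2 : y ^ D = y ^ ((i : ℕ) + 1) := by rw [hi]
    rw [h2, pow_succ] at h
    linear_combination -h
  · simp only [if_neg hi]
    have hlt : (i : ℕ) + 1 < D := by have := i.2; omega
    rw [Finset.sum_eq_single (⟨(i : ℕ) + 1, hlt⟩ : Fin D)]
    · simp only [if_true]
      rw [pow_succ]; ring
    · intro j _ hj
      rw [if_neg (fun h => hj (Fin.ext h)), zero_mul]
    · intro h; exact absurd (Finset.mem_univ _) h

theorem pow_mulVec {D : ℕ} {M : Matrix (Fin D) (Fin D) S} {v : Fin D → S} {u : S}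
    (h : M *ᵥ v = u • v) (n : ℕ) : (M ^ n) *ᵥ v = u ^ n • v := by
  induction n with
  | zero => simp
  | succ n ih =>
    rw [pow_succ, ← Matrix.mulVec_mulVec, h, Matrix.mulVec_smul, ih, smul_smul, pow_succ]
    congr 1; ring

theorem matN_mulVec {D : ℕ} (q : ℕ) (a b : S) {M : Matrix (Fin D) (Fin D) S} {v : Fin D → S}
    {u : S} (w : S) (h : M *ᵥ v = u • v) (k : ℕ) :
    (matN q a b M w k) *ᵥ v = num q a b u w k • v := by
  induction k with
  | zero => exact h
  | succ k ih =>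
    simp only [matN, num]
    rw [Matrix.add_mulVec, Matrix.smul_mulVec, Matrix.smul_mulVec, Matrix.one_mulVec,
      pow_mulVec ih, smul_smul, ← add_smul]

theorem AK_mulVec {D : ℕ} (q : ℕ) (c b : S) (g : ℕ → S) (x y : S)
    (h : ∑ j ∈ Finset.range (D + 1), g j * y ^ j = 0) (k : ℕ) :
    (AK q (b * c) b D g x k) *ᵥ (vec y) =
      (den q b 1 k * den q b (g D) k * ((fc q c)^[k] x - (fc q c)^[k] y)) • vec y := by
  unfold AK
  rw [Matrix.sub_mulVec, Matrix.smul_mulVec, Matrix.one_mulVec, Matrix.smul_mulVec,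
    matN_mulVec q (b * c) b (g D) (cm_mulVec g y h), smul_smul, ← sub_smul, num_eq]
  have h1 : num q (b * c) b x 1 k = den q b 1 k * (fc q c)^[k] x := by
    have := num_eq q c b 1 x k
    rwa [one_mul] at this
  rw [h1]
  congr 1; ring

end

section
variable {F : Type*} [Field F]

/-- The norm form vanishes at a collision. -/
theorem FK_eq_zero {D : ℕ} (hD : 0 < D) (q : ℕ) (c b : F) (g : ℕ → F) (x y : F)
    (h : ∑ j ∈ Finset.range (D + 1), g j * y ^ j = 0) (k : ℕ)
    (hk : (fc q c)^[k] x = (fc q c)^[k] y) : FK q (b * c) b D g x k = 0 := by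
  unfold FK
  apply Matrix.exists_mulVec_eq_zero_iff.mp
  refine ⟨vec y, ?_, ?_⟩
  · intro h0
    have := congrFun h0 ⟨0, hD⟩
    simp [vec] at this
  · rw [AK_mulVec q c b g x y h k, hk, sub_self, mul_zero, zero_smul]

theorem den_ne_zero (q : ℕ) {b w : F} (hb : b ≠ 0) (hw : w ≠ 0) (k : ℕ) : den q b w k ≠ 0 := by
  induction k with
  | zero => exact hw
  | succ k ih => exact mul_ne_zero hb (pow_ne_zero _ ih)

/-- The norm form does not vanish when no conjugate collides. -/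
theorem FK_ne_zero {D : ℕ} (q : ℕ) {c b : F} (hb : b ≠ 0) (g : ℕ → F) (hg : g D ≠ 0) (x : F)
    (β : Fin D → F) (hβ : Function.Injective β)
    (h : ∀ i, ∑ j ∈ Finset.range (D + 1), g j * β i ^ j = 0) (k : ℕ)
    (hk : ∀ i, (fc q c)^[k] x ≠ (fc q c)^[k] (β i)) : FK q (b * c) b D g x k ≠ 0 := by
  set lam : Fin D → F := fun i =>
    den q b 1 k * den q b (g D) k * ((fc q c)^[k] x - (fc q c)^[k] (β i)) with hlam
  have hmul : (AK q (b * c) b D g x k) * (Matrix.vandermonde β)ᵀ =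
      (Matrix.vandermonde β)ᵀ * Matrix.diagonal lam := by
    ext i j
    rw [Matrix.mul_diagonal]
    have h1 := congrFun (AK_mulVec q c b g x (β j) (h j) k) i
    rw [Pi.smul_apply, smul_eq_mul] at h1
    have h2 : ((AK q (b * c) b D g x k) * (Matrix.vandermonde β)ᵀ) i j =
        ((AK q (b * c) b D g x k) *ᵥ (vec (β j))) i := by
      rw [Matrix.mul_apply, Matrix.mulVec, dotProduct]
      rfl
    rw [h2, h1]
    simp only [vec, Matrix.transpose_apply, Matrix.vandermonde_apply, hlam]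
    ring
  have hdet := congrArg Matrix.det hmul
  rw [Matrix.det_mul, Matrix.det_mul, Matrix.det_diagonal, Matrix.det_transpose] at hdet
  have hV : (Matrix.vandermonde β).det ≠ 0 := Matrix.det_vandermonde_ne_zero_iff.mpr hβ
  have hlam0 : ∏ i, lam i ≠ 0 := Finset.prod_ne_zero_iff.mpr fun i _ =>
    mul_ne_zero (mul_ne_zero (den_ne_zero q hb one_ne_zero k) (den_ne_zero q hb hg k))
      (sub_ne_zero.mpr (hk i))
  intro h0
  unfold FK at h0
  rw [h0, zero_mul] at hdet
  exact mul_ne_zero hV hlam0 hdet.symm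

end

section bounds

/-- The majorant. -/
noncomputable def EE (q : ℕ) (Γ e : ℝ) : ℕ → ℝ
  | 0 => e
  | k + 1 => Γ * EE q Γ e k ^ q

theorem EE_pos {q : ℕ} {Γ e : ℝ} (hΓ : 1 ≤ Γ) (he : 1 ≤ e) (k : ℕ) : 1 ≤ EE q Γ e k := by
  induction k with
  | zero => exact he
  | succ k ih =>
    simp only [EE]
    exact one_le_mul_of_one_le_of_one_le hΓ (one_le_pow₀ ih)

theorem EE_le {q : ℕ} (hq : 2 ≤ q) {Γ e : ℝ} (hΓ : 1 ≤ Γ) (he : 1 ≤ e) (k : ℕ) :
    EE q Γ e k ≤ Γ ^ (q ^ k - 1) * e ^ q ^ k := by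
  induction k with
  | zero => simp [EE]
  | succ k ih =>
    simp only [EE]
    have h1 : 1 ≤ q ^ k := Nat.one_le_pow _ _ (by omega)
    have h0 : 0 ≤ EE q Γ e k := zero_le_one.trans (EE_pos hΓ he k)
    calc Γ * EE q Γ e k ^ q ≤ Γ * (Γ ^ (q ^ k - 1) * e ^ q ^ k) ^ q := by gcongr
      _ = Γ ^ ((q ^ k - 1) * q + 1) * e ^ q ^ (k + 1) := by
          rw [mul_pow, ← pow_mul, ← pow_mul, pow_succ q k]
          ring
      _ ≤ Γ ^ (q ^ (k + 1) - 1) * e ^ q ^ (k + 1) := by
          gcongr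
          rw [pow_succ, Nat.sub_mul, one_mul]
          have h2 : 1 * q ≤ q ^ k * q := Nat.mul_le_mul_right q h1
          omega

variable {q D : ℕ} {a b w x : ℂ} {g : ℕ → ℂ} {A e : ℝ}

theorem den_bound (hb : ‖b‖ ≤ A) (hA : 1 ≤ A) (hw : ‖w‖ ≤ e) (he : 1 ≤ e) (k : ℕ) :
    ‖den q b w k‖ ≤ EE q (A * (D ^ q + 1)) e k := by
  have hΓ : 1 ≤ A * ((D : ℝ) ^ q + 1) := by
    have : (0 : ℝ) ≤ (D : ℝ) ^ q := by positivity
    nlinarith
  induction k with
  | zero => exact hw
  | succ k ih =>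
    simp only [den, EE]
    rw [norm_mul, norm_pow]
    have h0 : 0 ≤ EE q (A * (D ^ q + 1)) e k := zero_le_one.trans (EE_pos hΓ he k)
    have h1 : ‖b‖ ≤ A * ((D : ℝ) ^ q + 1) := by
      have : (0 : ℝ) ≤ (D : ℝ) ^ q := by positivity
      nlinarith
    gcongr

theorem num_bound (hD : 0 < D) (ha : ‖a‖ ≤ A) (hb : ‖b‖ ≤ A) (hA : 1 ≤ A) (hw : ‖w‖ ≤ e)
    (hx : ‖x‖ ≤ e) (he : 1 ≤ e) (k : ℕ) :
    ‖num q a b x w k‖ ≤ EE q (A * (D ^ q + 1)) e k := by
  have hΓ : 1 ≤ A * ((D : ℝ) ^ q + 1) := by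
    have : (0 : ℝ) ≤ (D : ℝ) ^ q := by positivity
    nlinarith
  have hD1 : (1 : ℝ) ≤ (D : ℝ) ^ q := one_le_pow₀ (by exact_mod_cast hD)
  induction k with
  | zero => exact hx
  | succ k ih =>
    simp only [num, EE]
    have h0 : 0 ≤ EE q (A * (D ^ q + 1)) e k := zero_le_one.trans (EE_pos hΓ he k)
    have hd := den_bound (q := q) (D := D) hb hA hw he k
    set E := EE q (A * (D ^ q + 1)) e k
    calc ‖b * num q a b x w k ^ q + a * den q b w k ^ q‖
        ≤ ‖b‖ * ‖num q a b x w k‖ ^ q + ‖a‖ * ‖den q b w k‖ ^ q := by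
          refine (norm_add_le _ _).trans ?_
          rw [norm_mul, norm_mul, norm_pow, norm_pow]
      _ ≤ A * E ^ q + A * E ^ q := by gcongr
      _ ≤ A * (D ^ q + 1) * E ^ q := by
          have : 0 ≤ E ^ q := by positivity
          nlinarith [mul_nonneg (zero_le_one.trans hA) this]

theorem pow_entry_bound {M : Matrix (Fin D) (Fin D) ℂ} {E : ℝ} (hE : 0 ≤ E)
    (hM : ∀ i j, ‖M i j‖ ≤ E) (n : ℕ) (i j : Fin D) :
    ‖(M ^ n) i j‖ ≤ (D : ℝ) ^ n * E ^ n := by
  have hD : 0 < D := lt_of_le_of_lt (Nat.zero_le _) i.2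
  have hD1 : (1 : ℝ) ≤ D := by exact_mod_cast hD
  induction n generalizing i j with
  | zero =>
    simp only [pow_zero, mul_one, Matrix.one_apply]
    split_ifs <;> simp
  | succ n ih =>
    rw [pow_succ, Matrix.mul_apply]
    calc ‖∑ l, (M ^ n) i l * M l j‖ ≤ ∑ l : Fin D, (D : ℝ) ^ n * E ^ n * E := by
          refine norm_sum_le_of_le _ fun l _ => ?_
          rw [norm_mul]
          exact mul_le_mul (ih i l) (hM l j) (norm_nonneg _) (by positivity)
      _ = (D : ℝ) ^ (n + 1) * E ^ (n + 1) := by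
          rw [Finset.sum_const, Finset.card_univ, Fintype.card_fin, nsmul_eq_mul]
          ring

theorem matN_bound {M : Matrix (Fin D) (Fin D) ℂ} (ha : ‖a‖ ≤ A) (hb : ‖b‖ ≤ A)
    (hA : 1 ≤ A) (hw : ‖w‖ ≤ e) (hM : ∀ i j, ‖M i j‖ ≤ e) (he : 1 ≤ e) (k : ℕ) (i j : Fin D) :
    ‖matN q a b M w k i j‖ ≤ EE q (A * (D ^ q + 1)) e k := by
  have hΓ : 1 ≤ A * ((D : ℝ) ^ q + 1) := by
    have : (0 : ℝ) ≤ (D : ℝ) ^ q := by positivity
    nlinarith
  induction k generalizing i j with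
  | zero => exact hM i j
  | succ k ih =>
    simp only [matN, EE]
    have h0 : 0 ≤ EE q (A * (D ^ q + 1)) e k := zero_le_one.trans (EE_pos hΓ he k)
    have hd := den_bound (q := q) (D := D) hb hA hw he k
    have hp := pow_entry_bound h0 ih q i j
    set E := EE q (A * (D ^ q + 1)) e k
    have h1 : ‖(1 : Matrix (Fin D) (Fin D) ℂ) i j‖ ≤ 1 := by
      rw [Matrix.one_apply]; split_ifs <;> simp
    rw [Matrix.add_apply, Matrix.smul_apply, Matrix.smul_apply, smul_eq_mul, smul_eq_mul]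
    calc ‖b * (matN q a b M w k ^ q) i j + a * den q b w k ^ q * (1 : Matrix _ _ ℂ) i j‖
        ≤ ‖b‖ * ‖(matN q a b M w k ^ q) i j‖ +
          ‖a‖ * ‖den q b w k‖ ^ q * ‖(1 : Matrix (Fin D) (Fin D) ℂ) i j‖ := by
          refine (norm_add_le _ _).trans ?_
          rw [norm_mul, norm_mul, norm_mul, norm_pow]
      _ ≤ A * ((D : ℝ) ^ q * E ^ q) + A * E ^ q * 1 := by gcongr
      _ = A * (D ^ q + 1) * E ^ q := by ring

/-- **The size of the norm form.** -/
theorem FK_bound (hD : 0 < D) (hq : 2 ≤ q) (ha : ‖a‖ ≤ A) (hb : ‖b‖ ≤ A) (hA : 1 ≤ A)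
    (hg : ∀ j ≤ D, ‖g j‖ ≤ e) (hx : ‖x‖ ≤ e) (he : 1 ≤ e) (k : ℕ) :
    ‖FK q a b D g x k‖ ≤
      ((D.factorial : ℝ) * 2 ^ D * (A * (D ^ q + 1) * e) ^ (2 * D)) ^ q ^ k := by
  have hΓ : 1 ≤ A * ((D : ℝ) ^ q + 1) := by
    have : (0 : ℝ) ≤ (D : ℝ) ^ q := by positivity
    nlinarith
  have hE1 := EE_pos (q := q) hΓ he k
  have hEle := EE_le hq hΓ he k
  set E := EE q (A * (D ^ q + 1)) e k with hE
  have hcm : ∀ i j, ‖cm D g i j‖ ≤ e := by
    intro i j
    unfold cm
    split_ifs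
    · rw [norm_neg]; exact hg _ j.2.le
    · exact hg _ le_rfl
    · rw [norm_zero]; linarith
  have hent : ∀ i j, ‖AK q a b D g x k i j‖ ≤ 2 * E ^ 2 := by
    intro i j
    have h1 : ‖(1 : Matrix (Fin D) (Fin D) ℂ) i j‖ ≤ 1 := by
      rw [Matrix.one_apply]; split_ifs <;> simp
    have n1 := num_bound (q := q) (D := D) (w := 1) (x := x) hD ha hb hA (by simpa using he) hx he k
    have n2 := den_bound (q := q) (D := D) (w := g D) hb hA (hg D le_rfl) he k
    have n3 := den_bound (q := q) (D := D) (w := 1) hb hA (by simpa using he) he k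
    have n4 := matN_bound (q := q) ha hb hA (hg D le_rfl) hcm he k i j
    rw [← hE] at n1 n2 n3 n4
    have hE0 : 0 ≤ E := zero_le_one.trans hE1
    unfold AK
    rw [Matrix.sub_apply, Matrix.smul_apply, Matrix.smul_apply, smul_eq_mul, smul_eq_mul]
    calc ‖num q a b x 1 k * den q b (g D) k * (1 : Matrix _ _ ℂ) i j -
          den q b 1 k * matN q a b (cm D g) (g D) k i j‖
        ≤ ‖num q a b x 1 k‖ * ‖den q b (g D) k‖ * ‖(1 : Matrix (Fin D) (Fin D) ℂ) i j‖ +
          ‖den q b 1 k‖ * ‖matN q a b (cm D g) (g D) k i j‖ := by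
          refine (norm_sub_le _ _).trans ?_
          rw [norm_mul, norm_mul, norm_mul]
      _ ≤ E * E * 1 + E * E := by gcongr
      _ = 2 * E ^ 2 := by ring
  have hdet := Matrix.det_le (abv := (NormedField.toAbsoluteValue ℂ)) (A := AK q a b D g x k)
    (x := 2 * E ^ 2) (fun i j => hent i j)
  have hdet' : ‖FK q a b D g x k‖ ≤ (D.factorial : ℝ) * (2 * E ^ 2) ^ D := by
    rw [Fintype.card_fin, nsmul_eq_mul] at hdet
    exact hdet
  refine hdet'.trans ?_
  have hqk : 1 ≤ q ^ k := Nat.one_le_pow _ _ (by omega)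
  have hE2 : E ≤ (A * (D ^ q + 1) * e) ^ q ^ k := by
    rw [mul_pow]
    refine hEle.trans ?_
    gcongr
    omega
  have hE0 : 0 ≤ E := zero_le_one.trans hE1
  calc (D.factorial : ℝ) * (2 * E ^ 2) ^ D
      ≤ (D.factorial : ℝ) * (2 * ((A * (D ^ q + 1) * e) ^ q ^ k) ^ 2) ^ D := by gcongr
    _ = (D.factorial : ℝ) * 2 ^ D * ((A * (D ^ q + 1) * e) ^ (2 * D)) ^ q ^ k := by
        rw [mul_pow]; ring
    _ ≤ ((D.factorial : ℝ) * 2 ^ D) ^ q ^ k * ((A * (D ^ q + 1) * e) ^ (2 * D)) ^ q ^ k := by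
        gcongr
        have h1 : (1 : ℝ) ≤ (D.factorial : ℝ) * 2 ^ D := by
          have h2 : (1 : ℝ) ≤ D.factorial := by exact_mod_cast D.factorial_pos
          exact one_le_mul_of_one_le_of_one_le h2 (one_le_pow₀ (by norm_num))
        exact le_self_pow₀ h1 (by omega)
    _ = _ := by rw [← mul_pow]

end bounds

end Pool.Agent.UH
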