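import Pool.Agent.UH.Mat

/-!
# The relation between two coordinates of a curve
-/

set_option autoImplicit false

open NumberField Polynomial

namespace Pool.Agent.UH

section
variable {K : Type*} [Field K] [NumberField K]

/-- Evaluation of an integral polynomial. -/
noncomputable def evK {A : Type*} [CommRing A] [Algebra K A] (x : A) : (𝓞 K)[X] →+* A :=
  (aeval x : K[X] →ₐ[K] A).toRingHom.comp (mapRingHom (algebraMap (𝓞 K) K))

theorem evK_apply {A : Type*} [CommRing A] [Algebra K A] (x : A) (p : (𝓞 K)[X]) :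
    evK x p = aeval x (p.map (algebraMap (𝓞 K) K)) := rfl

theorem evK_X {A : Type*} [CommRing A] [Algebra K A] (x : A) :
    evK (K := K) x X = x := by
  rw [evK_apply]; simp

theorem evK_C {A : Type*} [CommRing A] [Algebra K A] (x : A) (a : 𝓞 K) :
    evK (K := K) x (C a) = algebraMap K A (a : K) := by
  rw [evK_apply]; simp

theorem map_evK {A B : Type*} [CommRing A] [CommRing B] [Algebra K A] [Algebra K B]
    (φ : A →ₐ[K] B) (x : A) (p : (𝓞 K)[X]) : φ (evK x p) = evK (φ x) p := by
  rw [evK_apply, evK_apply]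
  exact (Polynomial.aeval_algHom_apply φ x _).symm

theorem evK_injective {F : Type*} [Field F] [Algebra K F] {ξ : F} (hξ : Transcendental K ξ) :
    Function.Injective (evK (K := K) ξ) := by
  intro p r h
  rw [evK_apply, evK_apply] at h
  have h1 := (transcendental_iff_injective.mp hξ) h
  exact Polynomial.map_injective _ (FaithfulSMul.algebraMap_injective (𝓞 K) K) h1

theorem exists_mult (r : K[X]) : ∃ (b : 𝓞 K) (N : (𝓞 K)[X]), (b : K) ≠ 0 ∧
    N.map (algebraMap (𝓞 K) K) = C (b : K) * r := by
  obtain ⟨b, hb0, hb⟩ := IsLocalization.integerNormalization_spec (nonZeroDivisors (𝓞 K)) r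
  refine ⟨b, IsLocalization.integerNormalization (nonZeroDivisors (𝓞 K)) r, ?_, ?_⟩
  · have := nonZeroDivisors.ne_zero hb0
    simpa using this
  · rw [hb]
    ext i
    simp [Algebra.smul_def]

/-- An element of `K(ξ)` as a quotient of integral polynomials. -/
theorem exists_frac {F : Type*} [Field F] [Algebra K F] {ξ : F}
    (α : IntermediateField.adjoin K {ξ}) :
    ∃ n d : (𝓞 K)[X], evK ξ d ≠ 0 ∧ evK ξ n = evK ξ d * (α : F) := by
  obtain ⟨r, s, hrs⟩ := (IntermediateField.mem_adjoin_simple_iff K (α : F)).mp α.2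
  by_cases hs : aeval ξ s = 0
  · refine ⟨0, 1, by rw [map_one]; exact one_ne_zero, ?_⟩
    rw [hrs, hs, div_zero, mul_zero, map_zero]
  obtain ⟨b, N, hb, hN⟩ := exists_mult r
  obtain ⟨b', N', hb', hN'⟩ := exists_mult s
  have hb0 : algebraMap K F (b : K) ≠ 0 := by
    rw [ne_eq, map_eq_zero]; exact hb
  have hb0' : algebraMap K F (b' : K) ≠ 0 := by
    rw [ne_eq, map_eq_zero]; exact hb'
  have e1 : evK ξ N = algebraMap K F (b : K) * aeval ξ r := by
    rw [evK_apply, hN, map_mul, aeval_C]
  have e2 : evK ξ N' = algebraMap K F (b' : K) * aeval ξ s := by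
    rw [evK_apply, hN', map_mul, aeval_C]
  refine ⟨C b' * N, C b * N', ?_, ?_⟩
  · rw [map_mul, evK_C, e2]
    exact mul_ne_zero hb0 (mul_ne_zero hb0' hs)
  · rw [map_mul, map_mul, evK_C, evK_C, e1, e2, hrs]
    field_simp

/-- The coefficients of the relation. -/
theorem exists_coeffs {F : Type*} [Field F] [Algebra K F] {ξ : F}
    (P : (IntermediateField.adjoin K {ξ})[X]) (D : ℕ) :
    ∃ (g : ℕ → (𝓞 K)[X]) (t : F), t ≠ 0 ∧ ∀ j ≤ D, evK ξ (g j) = t * (P.coeff j : F) := by
  classical
  choose n d hd hn using fun j : ℕ => exists_frac (K := K) (P.coeff j)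
  refine ⟨fun j => n j * ∏ i ∈ (Finset.range (D + 1)).erase j, d i,
    ∏ i ∈ Finset.range (D + 1), evK ξ (d i), ?_, ?_⟩
  · exact Finset.prod_ne_zero_iff.mpr fun i _ => hd i
  · intro j hj
    rw [map_mul, map_prod, hn, ← Finset.mul_prod_erase (Finset.range (D + 1))
      (fun i => evK ξ (d i)) (Finset.mem_range.mpr (Nat.lt_succ_of_le hj))]
    ring

/-- **The relation.** -/
theorem exists_rel {F : Type*} [Field F] [Algebra K F] {ξ η : F}
    (hη : IsIntegral (IntermediateField.adjoin K {ξ}) η) :
    ∃ (D : ℕ) (g : ℕ → (𝓞 K)[X]), 0 < D ∧ evK ξ (g D) ≠ 0 ∧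
      (∑ j ∈ Finset.range (D + 1), evK ξ (g j) * η ^ j = 0) ∧
      ∀ (q : ℕ) (c : K) (a b : 𝓞 K), (b : K) ≠ 0 → (a : K) = b * c → ∀ k : ℕ,
        (fc q (algebraMap K F c))^[k] ξ ≠ (fc q (algebraMap K F c))^[k] η →
        FK q (C a) (C b) D g X k ≠ 0 := by
  set k0 := IntermediateField.adjoin K {ξ} with hk0
  set P := minpoly k0 η with hP
  set D := P.natDegree with hD
  have hDpos : 0 < D := minpoly.natDegree_pos hη
  obtain ⟨g, t, ht, hg⟩ := exists_coeffs (K := K) (ξ := ξ) P D
  have hgD : evK ξ (g D) ≠ 0 := by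
    rw [hg D le_rfl]
    have : P.coeff D = 1 := (minpoly.monic hη).coeff_natDegree
    rw [this]
    simpa using ht
  refine ⟨D, g, hDpos, hgD, ?_, ?_⟩
  · have h1 : ∑ j ∈ Finset.range (D + 1), (P.coeff j : F) * η ^ j = 0 := by
      have h2 := minpoly.aeval k0 η
      rw [aeval_eq_sum_range] at h2
      rw [← h2]
      refine Finset.sum_congr rfl fun j _ => ?_
      rw [Algebra.smul_def]; rfl
    calc ∑ j ∈ Finset.range (D + 1), evK ξ (g j) * η ^ j
        = ∑ j ∈ Finset.range (D + 1), t * ((P.coeff j : F) * η ^ j) := by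
          refine Finset.sum_congr rfl fun j hj => ?_
          rw [hg j (Nat.lt_succ_iff.mp (Finset.mem_range.mp hj))]; ring
      _ = 0 := by rw [← Finset.mul_sum, h1, mul_zero]
  · intro q c a b hb hab k hk
    let Ω := AlgebraicClosure F
    have hchar : CharZero F := charZero_of_injective_algebraMap (algebraMap K F).injective
    have hchark : CharZero k0 := charZero_of_injective_algebraMap (algebraMap K k0).injective
    -- the roots
    have hsep : P.Separable := (minpoly.irreducible hη).separable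
    have hspl : (P.map (algebraMap k0 Ω)).Splits := IsAlgClosed.splits _
    have hcard := card_rootSet_eq_natDegree hsep hspl
    have e : Fin D ≃ P.rootSet Ω := (Fintype.equivFinOfCardEq hcard).symm
    have hroot : ∀ i : Fin D, aeval ((e i : Ω)) P = 0 := fun i => (mem_rootSet.mp (e i).2).2
    -- the images
    set ι : F →ₐ[K] Ω := IsScalarTower.toAlgHom K F Ω with hι
    have hev : ∀ p : (𝓞 K)[X], ι (evK ξ p) = evK (ι ξ) p := fun p => map_evK ι ξ p
    intro h0
    have h1 : evK (K := K) (ι ξ) (FK q (C a) (C b) D g X k) = 0 := by rw [h0, map_zero]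
    rw [map_FK, evK_X, evK_C, evK_C] at h1
    have hab' : algebraMap K Ω (a : K) = algebraMap K Ω (b : K) * algebraMap K Ω c := by
      rw [← map_mul, hab]
    rw [hab'] at h1
    have hb' : algebraMap K Ω (b : K) ≠ 0 := by
      rw [ne_eq, map_eq_zero]; exact hb
    refine FK_ne_zero q hb' (fun j => evK (ι ξ) (g j)) ?_ (ι ξ) (fun i => (e i : Ω)) ?_ ?_ k ?_ h1
    · rw [← hev]
      intro h2
      exact hgD ((map_eq_zero_iff _ ι.toRingHom.injective).mp h2)
    · intro i j hij
      exact e.injective (Subtype.ext hij)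
    · intro i
      have h2 := hroot i
      rw [aeval_eq_sum_range] at h2
      calc ∑ j ∈ Finset.range (D + 1), evK (ι ξ) (g j) * (e i : Ω) ^ j
          = ∑ j ∈ Finset.range (D + 1), ι t * (P.coeff j • (e i : Ω) ^ j) := by
            refine Finset.sum_congr rfl fun j hj => ?_
            rw [← hev, hg j (Nat.lt_succ_iff.mp (Finset.mem_range.mp hj)), map_mul,
              Algebra.smul_def]
            rw [mul_assoc]
            rfl
        _ = 0 := by rw [← Finset.mul_sum, h2, mul_zero]
    · intro i heq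
      apply hk
      -- the polynomial `f^k(Y) - f^k(ξ)`
      set ξ0 : k0 := IntermediateField.AdjoinSimple.gen K ξ with hξ0
      set Q : k0[X] := (fc q (C (algebraMap K k0 c)))^[k] X -
        C ((fc q (algebraMap K k0 c))^[k] ξ0) with hQ
      have hQe : ∀ {A : Type _} [Field A] [Algebra k0 A] (y : A), aeval y Q =
          (fc q (algebraMap k0 A (algebraMap K k0 c)))^[k] y -
            (fc q (algebraMap k0 A (algebraMap K k0 c)))^[k] (algebraMap k0 A ξ0) := by
        intro A _ _ y
        rw [hQ, map_sub, aeval_C, map_iter_fc (algebraMap k0 A)]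
        congr 1
        have := map_iter_fc (aeval y : k0[X] →ₐ[k0] A).toRingHom q (C (algebraMap K k0 c)) X k
        simp only [AlgHom.toRingHom_eq_coe, RingHom.coe_coe, aeval_C, aeval_X] at this
        exact this
      have h3 : aeval ((e i : Ω)) Q = 0 := by
        rw [hQe]
        have h4 : algebraMap k0 Ω (algebraMap K k0 c) = algebraMap K Ω c := rfl
        have h5 : algebraMap k0 Ω ξ0 = ι ξ := rfl
        rw [h4, h5, heq, sub_self]
      have h6 : P ∣ Q := by
        have h7 : minpoly k0 (e i : Ω) = P :=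
          (minpoly.eq_of_irreducible_of_monic (minpoly.irreducible hη) (hroot i)
            (minpoly.monic hη)).symm
        rw [← h7]
        exact minpoly.dvd k0 _ h3
      have h8 : aeval η Q = 0 := by
        obtain ⟨R, hR⟩ := h6
        rw [hR, map_mul, minpoly.aeval, zero_mul]
      rw [hQe] at h8
      have h4 : algebraMap k0 F (algebraMap K k0 c) = algebraMap K F c := rfl
      have h5 : algebraMap k0 F ξ0 = ξ := rfl
      rw [h4, h5] at h8
      exact (sub_eq_zero.mp h8).symm

end

end Pool.Agent.UH
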