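import Pool.Agent.UH.Rel
import Pool.Agent.UH.HFun
import Pool.Agent.UH.Coll

/-!
# Collisions on a curve have bounded height
-/

set_option autoImplicit false

universe u

open NumberField Polynomial IsDedekindDomain

namespace Pool.Agent.UH

/-- `(x, y)` is a specialisation of `(ξ, η)` over `K`. -/
def Spec (K : Type*) [Field K] {F Ω : Type*} [Field F] [Field Ω] [Algebra K F] [Algebra K Ω]
    (ξ η : F) (x y : Ω) : Prop :=
  ∀ H : MvPolynomial (Fin 2) K, MvPolynomial.aeval ![ξ, η] H = 0 →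
    MvPolynomial.aeval ![x, y] H = 0

section
variable {K : Type*} [Field K] [NumberField K]

/-- The bivariate polynomial of the relation. -/
noncomputable def relPoly (D : ℕ) (g : ℕ → (𝓞 K)[X]) : MvPolynomial (Fin 2) K :=
  ∑ j ∈ Finset.range (D + 1), evK (MvPolynomial.X 0) (g j) * MvPolynomial.X 1 ^ j

theorem aeval_relPoly {A : Type*} [CommRing A] [Algebra K A] (D : ℕ) (g : ℕ → (𝓞 K)[X])
    (u w : A) : MvPolynomial.aeval ![u, w] (relPoly D g) =
      ∑ j ∈ Finset.range (D + 1), evK u (g j) * w ^ j := by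
  rw [relPoly, map_sum]
  refine Finset.sum_congr rfl fun j _ => ?_
  rw [map_mul, map_pow, map_evK]
  simp

theorem Spec.rel {F Ω : Type*} [Field F] [Field Ω] [Algebra K F] [Algebra K Ω]
    {ξ η : F} {x y : Ω} (h : Spec K ξ η x y) (D : ℕ) (g : ℕ → (𝓞 K)[X])
    (hg : ∑ j ∈ Finset.range (D + 1), evK ξ (g j) * η ^ j = 0) :
    ∑ j ∈ Finset.range (D + 1), evK x (g j) * y ^ j = 0 := by
  rw [← aeval_relPoly]
  apply h
  rw [aeval_relPoly]
  exact hg

/-- The degree of `K(x, y)` for a collision, in terms of the degree of `x`. -/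
theorem degree_le {Ω : Type u} [Field Ω] [CharZero Ω] [Algebra K Ω] {p s : ℕ} {c : K} {C0 : ℕ}
    (hC0 : ∀ (E : Type u) [Field E] [NumberField E] [Algebra K E] (x y : E) (N : ℕ),
      (fc (p ^ s) (algebraMap K E c))^[N + 1] x = (fc (p ^ s) (algebraMap K E c))^[N + 1] y →
      (fc (p ^ s) (algebraMap K E c))^[N] x ≠ (fc (p ^ s) (algebraMap K E c))^[N] y →
        (p ^ s) ^ N ≤ C0 * Module.finrank K E)
    (D : ℕ) (k1 : IntermediateField K Ω) [FiniteDimensional K k1] (x1 : k1) {y : Ω}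
    (G : Polynomial k1)
    (hG0 : G ≠ 0) (hGD : G.natDegree ≤ D) (hGy : aeval y G = 0) (N : ℕ)
    (h1 : (fc (p ^ s) (algebraMap K Ω c))^[N + 1] (x1 : Ω) =
      (fc (p ^ s) (algebraMap K Ω c))^[N + 1] y)
    (h2 : (fc (p ^ s) (algebraMap K Ω c))^[N] (x1 : Ω) ≠
      (fc (p ^ s) (algebraMap K Ω c))^[N] y) :
    (p ^ s) ^ N ≤ C0 * (D * Module.finrank K k1) := by
  have hnf1 : NumberField k1 := NumberField.of_module_finite K _
  have hyi : IsIntegral k1 y := (isAlgebraic_iff_isIntegral).mp ⟨G, hG0, hGy⟩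
  set E := IntermediateField.adjoin k1 {y} with hE
  have hfd2 : FiniteDimensional k1 E := IntermediateField.adjoin.finiteDimensional hyi
  have hnf2 : NumberField E := NumberField.of_module_finite k1 _
  set xE : E := algebraMap k1 E x1 with hxE
  set yE : E := IntermediateField.AdjoinSimple.gen k1 y with hyE
  have ex : algebraMap E Ω xE = x1 := rfl
  have ey : algebraMap E Ω yE = y := rfl
  have ec : algebraMap E Ω (algebraMap K E c) = algebraMap K Ω c := rfl
  have hinj : Function.Injective (algebraMap E Ω) := (algebraMap E Ω).injective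
  have e1 : (fc (p ^ s) (algebraMap K E c))^[N + 1] xE =
      (fc (p ^ s) (algebraMap K E c))^[N + 1] yE := by
    apply hinj
    rw [map_iter_fc, map_iter_fc, ec, ex, ey]
    exact h1
  have e2 : (fc (p ^ s) (algebraMap K E c))^[N] xE ≠
      (fc (p ^ s) (algebraMap K E c))^[N] yE := by
    intro h
    apply h2
    have := congrArg (algebraMap E Ω) h
    rwa [map_iter_fc, map_iter_fc, ec, ex, ey] at this
  have e3 := hC0 E xE yE N e1 e2
  refine e3.trans (Nat.mul_le_mul_left _ ?_)
  have e5 : Module.finrank k1 E = (minpoly k1 y).natDegree :=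
    IntermediateField.adjoin.finrank hyi
  have e6 : (minpoly k1 y).natDegree ≤ D :=
    (natDegree_le_of_dvd (minpoly.dvd k1 y hGy) hG0).trans hGD
  rw [← Module.finrank_mul_finrank K k1 E, e5, mul_comm]
  exact Nat.mul_le_mul_right _ e6

theorem finite_roots_bound {Ω : Type*} [Field Ω] [CharZero Ω] [Algebra.IsAlgebraic ℚ Ω]
    (P : Polynomial Ω) (hP : P ≠ 0) : ∃ B : ℝ, 0 ≤ B ∧ ∀ x : Ω, P.eval x = 0 →
      absLogHeight₁ x ≤ B := by
  classical
  refine ⟨∑ r ∈ P.roots.toFinset, absLogHeight₁ r, Finset.sum_nonneg fun r _ => abs_nonneg r,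
    fun x hx => ?_⟩
  have hmem : x ∈ P.roots.toFinset := by
    rw [Multiset.mem_toFinset]
    exact (mem_roots hP).mpr hx
  exact Finset.single_le_sum (f := fun r => absLogHeight₁ r) (fun r _ => abs_nonneg r) hmem

/-- **Collisions on a curve.** -/
theorem collisions_bounded {Ω : Type*} [Field Ω] [CharZero Ω] [Algebra K Ω] [IsAlgClosed Ω]
    [Algebra.IsAlgebraic ℚ Ω] [Algebra.IsAlgebraic K Ω]
    {F : Type*} [Field F] [Algebra K F] {p s : ℕ} (hp : p.Prime) (hs : 0 < s) (c : K)
    (v : HeightOneSpectrum (𝓞 K)) (hv : v.valuation K (p : K) < 1) (hc : v.valuation K c ≤ 1)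
    (h0 : ∀ n, 0 < n → (fc (p ^ s) c)^[n] 0 ≠ 0) {ξ η : F}
    (hη : IsIntegral (IntermediateField.adjoin K {ξ}) η) :
    ∃ B : ℝ, 0 ≤ B ∧ ∀ k : ℕ,
      (fc (p ^ s) (algebraMap K F c))^[k] ξ ≠ (fc (p ^ s) (algebraMap K F c))^[k] η →
      ∀ x y : Ω, Spec K ξ η x y →
        (fc (p ^ s) (algebraMap K Ω c))^[k] x = (fc (p ^ s) (algebraMap K Ω c))^[k] y →
          absLogHeight₁ x ≤ B := by
  classical
  obtain ⟨C0, hC0pos, hC0⟩ := collision hp hs c v hv hc h0
  obtain ⟨D, g, hD, hgD, hrel, hnz⟩ := exists_rel hη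
  obtain ⟨a, b, hb, hab⟩ := IsFractionRing.div_surjective (A := 𝓞 K) c
  have hb0 : (b : K) ≠ 0 := by
    have := nonZeroDivisors.ne_zero hb
    simpa using this
  have hab' : (a : K) = b * c := by
    rw [← hab]; field_simp
  set q := p ^ s with hq
  have hq2 : 2 ≤ q := by
    calc 2 ≤ p := hp.two_le
      _ = p ^ 1 := (pow_one p).symm
      _ ≤ p ^ s := Nat.pow_le_pow_right hp.pos hs
  -- the leading coefficient
  have hgD0 : g D ≠ 0 := by
    rintro h
    rw [h, map_zero] at hgD
    exact hgD rfl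
  have hP0 : ((g D).map (algebraMap (𝓞 K) K)).map (algebraMap K Ω) ≠ 0 := by
    rw [Polynomial.map_ne_zero_iff (algebraMap K Ω).injective,
      Polynomial.map_ne_zero_iff (FaithfulSMul.algebraMap_injective (𝓞 K) K)]
    exact hgD0
  obtain ⟨B1, hB1, hB1'⟩ := finite_roots_bound _ hP0
  -- the constants
  set A : ℝ := 1 + ∑ σ : K →+* ℂ, (‖σ a‖ + ‖σ b‖) with hA
  have hA1 : 1 ≤ A := by
    have : 0 ≤ ∑ σ : K →+* ℂ, (‖σ a‖ + ‖σ b‖) := Finset.sum_nonneg fun σ _ => by positivity
    linarith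
  have hAab : ∀ σ : K →+* ℂ, ‖σ a‖ + ‖σ b‖ ≤ A := fun σ => by
    have := Finset.single_le_sum (f := fun σ : K →+* ℂ => ‖σ a‖ + ‖σ b‖)
      (fun σ _ => by positivity) (Finset.mem_univ σ)
    linarith
  set e : ℝ := 1 + ∑ σ : K →+* ℂ, ∑ j ∈ Finset.range (D + 1), ∑ i ∈ (g j).support,
    ‖σ ((g j).coeff i)‖ with he
  have he1 : 1 ≤ e := by
    have : 0 ≤ ∑ σ : K →+* ℂ, ∑ j ∈ Finset.range (D + 1), ∑ i ∈ (g j).support,
      ‖σ ((g j).coeff i)‖ := Finset.sum_nonneg fun σ _ => Finset.sum_nonneg fun j _ =>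
        Finset.sum_nonneg fun i _ => norm_nonneg _
    linarith
  set τ : (K →+* ℂ) → ℂ → ((𝓞 K)[X] →+* ℂ) := fun σ z =>
    eval₂RingHom (σ.comp (algebraMap (𝓞 K) K)) z with hτ
  have hge : ∀ (σ : K →+* ℂ) (z : ℂ), ‖z‖ = 1 → ∀ j ≤ D, ‖τ σ z (g j)‖ ≤ e := by
    intro σ z hz j hj
    have h1 : ‖τ σ z (g j)‖ ≤ ∑ i ∈ (g j).support, ‖σ ((g j).coeff i)‖ := by
      rw [hτ]
      simp only [coe_eval₂RingHom]
      rw [eval₂_eq_sum, Polynomial.sum]
      refine norm_sum_le_of_le _ fun i _ => ?_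
      rw [norm_mul, norm_pow, hz, one_pow, mul_one]
      rfl
    have h2 := Finset.single_le_sum (f := fun j => ∑ i ∈ (g j).support, ‖σ ((g j).coeff i)‖)
      (fun j _ => Finset.sum_nonneg fun i _ => norm_nonneg _)
      (Finset.mem_range.mpr (Nat.lt_succ_of_le hj))
    have h3 := Finset.single_le_sum (f := fun σ : K →+* ℂ => ∑ j ∈ Finset.range (D + 1),
      ∑ i ∈ (g j).support, ‖σ ((g j).coeff i)‖)
      (fun σ _ => Finset.sum_nonneg fun j _ => Finset.sum_nonneg fun i _ => norm_nonneg _)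
      (Finset.mem_univ σ)
    linarith
  set M : ℝ := (D.factorial : ℝ) * 2 ^ D * (A * (D ^ q + 1) * e) ^ (2 * D) with hM
  have hM1 : 1 ≤ M := by
    have h2 : (1 : ℝ) ≤ D.factorial := by exact_mod_cast D.factorial_pos
    have h3 : (1 : ℝ) ≤ A * (D ^ q + 1) * e := by
      have : (0 : ℝ) ≤ (D : ℝ) ^ q := by positivity
      have h4 : 1 ≤ A * ((D : ℝ) ^ q + 1) := one_le_mul_of_one_le_of_one_le hA1 (by linarith)
      exact one_le_mul_of_one_le_of_one_le h4 he1
    exact one_le_mul_of_one_le_of_one_le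
      (one_le_mul_of_one_le_of_one_le h2 (one_le_pow₀ (by norm_num))) (one_le_pow₀ h3)
  have hlogM : 0 ≤ Real.log M := Real.log_nonneg hM1
  -- the height in terms of the degree
  have hheight : ∀ k : ℕ,
      (fc q (algebraMap K F c))^[k] ξ ≠ (fc q (algebraMap K F c))^[k] η →
      ∀ x y : Ω, Spec K ξ η x y →
        (fc q (algebraMap K Ω c))^[k] x = (fc q (algebraMap K Ω c))^[k] y →
          (minpoly K x).natDegree * absLogHeight₁ x ≤ (q : ℝ) ^ k * Real.log M := by
    intro k hk x y hxy hkxy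
    set Fk := FK q (C a) (C b) D g X k with hFk
    have hFk0 : Fk ≠ 0 := hnz q c a b hb0 hab' k hk
    have e1 : evK (K := K) x Fk = 0 := by
      rw [hFk, map_FK, evK_X, evK_C, evK_C, hab', map_mul]
      exact FK_eq_zero hD q _ _ _ x y (hxy.rel D g hrel) k hkxy
    have h5 : Fk.map (algebraMap (𝓞 K) K) ≠ 0 := by
      rw [Polynomial.map_ne_zero_iff (FaithfulSMul.algebraMap_injective (𝓞 K) K)]
      exact hFk0
    have h6 := abs_height_bound (Fk.map (algebraMap (𝓞 K) K)) h5 (by
      intro i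
      rw [coeff_map]
      exact (Fk.coeff i).2) (B := M ^ q ^ k) (one_le_pow₀ hM1) (by
      intro σ z hz
      have e2 : ((Fk.map (algebraMap (𝓞 K) K)).map σ).eval z = τ σ z Fk := by
        rw [Polynomial.map_map, eval_map]
        rfl
      rw [e2, hFk, map_FK]
      refine FK_bound hD hq2 ?_ ?_ hA1 (hge σ z hz) ?_ he1 k
      · rw [hτ]
        simp only [coe_eval₂RingHom, eval₂_C]
        exact le_trans (by
          have := norm_nonneg (σ b)
          change ‖σ a‖ ≤ _
          linarith) (hAab σ)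
      · rw [hτ]
        simp only [coe_eval₂RingHom, eval₂_C]
        exact le_trans (by
          have := norm_nonneg (σ a)
          change ‖σ b‖ ≤ _
          linarith) (hAab σ)
      · rw [hτ]
        simp only [coe_eval₂RingHom, eval₂_X]
        rw [hz]; exact he1) (x := x) (by
      exact e1)
    rw [Real.log_pow] at h6
    exact_mod_cast h6
  refine ⟨B1 + (q * (C0 * D) * Real.log M + Real.log M), by positivity, ?_⟩
  intro k hk x y hxy hkxy
  by_cases hbad : evK (K := K) x (g D) = 0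
  · have h7 := hB1' x (by
      rw [eval_map_algebraMap]
      exact hbad)
    have h8 : 0 ≤ q * (C0 * D) * Real.log M + Real.log M := by positivity
    linarith
  have hxi : IsIntegral K x := Algebra.IsIntegral.isIntegral x
  have hdeg : (0 : ℝ) < (minpoly K x).natDegree := by
    exact_mod_cast minpoly.natDegree_pos hxi
  -- the minimal level
  have hex : ∃ n, (fc q (algebraMap K Ω c))^[n] x = (fc q (algebraMap K Ω c))^[n] y := ⟨k, hkxy⟩
  set n := Nat.find hex with hn
  have hn1 := Nat.find_spec hex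
  rw [← hn] at hn1
  have hnk : n ≤ k := Nat.find_min' hex hkxy
  have hnF : (fc q (algebraMap K F c))^[n] ξ ≠ (fc q (algebraMap K F c))^[n] η := by
    intro h
    apply hk
    obtain ⟨r, rfl⟩ : ∃ r, k = r + n := ⟨k - n, by omega⟩
    rw [Function.iterate_add_apply, Function.iterate_add_apply, h]
  have h9 := hheight n hnF x y hxy hn1
  rcases Nat.eq_zero_or_pos n with hn0 | hnpos
  · rw [hn0, pow_zero, one_mul] at h9
    have h10 : absLogHeight₁ x ≤ (minpoly K x).natDegree * absLogHeight₁ x := by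
      have h11 : (1 : ℝ) ≤ (minpoly K x).natDegree := by
        exact_mod_cast minpoly.natDegree_pos hxi
      exact le_mul_of_one_le_left (abs_nonneg x) h11
    have h12 : 0 ≤ q * (C0 * D) * Real.log M := by positivity
    linarith
  · obtain ⟨N, hN⟩ : ∃ N, n = N + 1 := ⟨n - 1, by omega⟩
    rw [hN] at hn1 h9
    have hmin : (fc q (algebraMap K Ω c))^[N] x ≠ (fc q (algebraMap K Ω c))^[N] y :=
      Nat.find_min hex (by omega)
    -- the polynomial satisfied by `y` over `K(x)`
    set k1 := IntermediateField.adjoin K {x} with hk1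
    set x1 : k1 := IntermediateField.AdjoinSimple.gen K x with hx1
    set G : k1[X] := ∑ j ∈ Finset.range (D + 1), C (evK x1 (g j)) * X ^ j with hG
    have hx1e : ∀ j, algebraMap k1 Ω (evK x1 (g j)) = evK x (g j) := by
      intro j
      exact map_evK (IsScalarTower.toAlgHom K k1 Ω) x1 (g j)
    have hGcoeff : G.coeff D = evK x1 (g D) := by
      rw [hG, finsetSum_coeff]
      simp [coeff_X_pow]
    have hG0 : G ≠ 0 := by
      intro h
      apply hbad
      rw [h, coeff_zero] at hGcoeff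
      rw [← hx1e, ← hGcoeff, map_zero]
    have hGD : G.natDegree ≤ D := by
      rw [hG]
      refine natDegree_sum_le_of_forall_le _ _ fun j hj => ?_
      refine (natDegree_C_mul_X_pow_le _ _).trans ?_
      exact Nat.lt_succ_iff.mp (Finset.mem_range.mp hj)
    have hGy : aeval y G = 0 := by
      rw [hG, map_sum, ← hxy.rel D g hrel]
      refine Finset.sum_congr rfl fun j _ => ?_
      rw [map_mul, aeval_C, map_pow, aeval_X, hx1e]
    have hfd1 : FiniteDimensional K k1 := IntermediateField.adjoin.finiteDimensional hxi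
    have h13 := degree_le (Ω := Ω) hC0 D k1 x1 G hG0 hGD hGy N hn1 hmin
    rw [show Module.finrank K k1 = (minpoly K x).natDegree from
      IntermediateField.adjoin.finrank hxi] at h13
    have h14 : (q : ℝ) ^ N ≤ C0 * (D * (minpoly K x).natDegree) := by exact_mod_cast h13
    have h15 : (minpoly K x).natDegree * absLogHeight₁ x ≤
        (minpoly K x).natDegree * (q * (C0 * D) * Real.log M) := by
      calc _ ≤ (q : ℝ) ^ (N + 1) * Real.log M := h9
        _ = q * (q : ℝ) ^ N * Real.log M := by ring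
        _ ≤ q * (C0 * (D * (minpoly K x).natDegree)) * Real.log M := by gcongr
        _ = _ := by ring
    have h16 := le_of_mul_le_mul_left h15 hdeg
    linarith

end

end Pool.Agent.UH
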